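import Pool.Agent.Y771.GL.EU2

set_option autoImplicit false

/-! # GD2, task EU2: the finite products and the limit -/

namespace Pool.Agent.Y771.GL

open Complex Finset Filter Topology
open scoped ComplexConjugate

variable {ps lam : ℕ → ℂ}

theorem sum_coprime {m n : ℕ} (h : m.Coprime n) (f : ℕ → ℂ) :
    ∑ d ∈ (m * n).divisors, f d = ∑ x ∈ m.divisors, ∑ y ∈ n.divisors, f (x * y) := by
  rw [Nat.divisors_mul, Finset.mul_def, Finset.sum_image h.mul_injOn_divisors, sum_product]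

theorem lemB (S : Finset ℕ) (hS : ∀ p ∈ S, p.Prime) (t : ℕ → ℕ → ℂ) :
    ∑ l ∈ (∏ p ∈ S, p ^ 2).divisors, ∏ p ∈ S, t p (l.factorization p) = ∏ p ∈ S, ∑ j ∈ range 3, t p j := by
  induction S using Finset.induction_on with
  | empty => simp
  | insert q S hq ih =>
    have ih := ih (fun p hp => hS p (mem_insert_of_mem hp))
    have hqp := hS q (mem_insert_self _ _)
    have hcop0 : Nat.Coprime q (∏ p ∈ S, p ^ 2) := by
      apply Nat.Coprime.prod_right
      intro p hp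
      apply Nat.Coprime.pow_right
      rw [Nat.coprime_primes hqp (hS p (mem_insert_of_mem hp))]
      rintro rfl
      exact hq hp
    have hcop : Nat.Coprime (q ^ 2) (∏ p ∈ S, p ^ 2) := Nat.Coprime.pow_left 2 hcop0
    rw [prod_insert hq, prod_insert hq, sum_coprime hcop, Nat.divisors_prime_pow hqp, sum_map, ← ih,
      sum_mul_sum]
    refine sum_congr rfl fun j _ => ?_
    refine sum_congr rfl fun y hy => ?_
    simp only [Function.Embedding.coeFn_mk]
    have hy0 : y ≠ 0 := (Nat.pos_of_mem_divisors hy).ne'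
    have hqj : q ^ j ≠ 0 := pow_ne_zero _ hqp.ne_zero
    have hyq : y.factorization q = 0 := by
      apply Nat.factorization_eq_zero_of_not_dvd
      intro h1
      have h2 := Nat.dvd_gcd (dvd_refl q) (h1.trans (Nat.dvd_of_mem_divisors hy))
      rw [hcop0.gcd_eq_one] at h2
      exact hqp.one_lt.ne' (Nat.dvd_one.1 h2)
    rw [prod_insert hq]
    congr 1
    · rw [Nat.factorization_mul hqj hy0, Finsupp.add_apply, hyq, Nat.Prime.factorization_pow hqp,
        Finsupp.single_eq_same, add_zero]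
    · refine prod_congr rfl fun p hp => ?_
      rw [Nat.factorization_mul hqj hy0, Finsupp.add_apply, Nat.Prime.factorization_pow hqp,
        Finsupp.single_eq_of_ne, zero_add]
      rintro rfl
      exact hq hp

/-- the term as a product -/
theorem term_prod (H : Hk ps lam) (z : ℂ) {Z a q l : ℕ} (ha : a ∈ Icc 1 Z) (hq : q ∈ Icc 1 Z)
    (hl : l ∈ (∏ p ∈ pr Z, p ^ 2).divisors) :
    Pool.Agent.Y671.GL.mf ps lam (q * l) * conj (lam (a * l)) * (l : ℂ) ^ (-z) =
      ∏ p ∈ pr Z, (ml ps lam p (q.factorization p + l.factorization p) *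
        conj (lam (p ^ (a.factorization p + l.factorization p))) * ((p : ℂ) ^ (-z)) ^ l.factorization p) := by
  have ha0 : a ≠ 0 := by rw [mem_Icc] at ha; omega
  have hq0 : q ≠ 0 := by rw [mem_Icc] at hq; omega
  have hl0 : l ≠ 0 := (Nat.pos_of_mem_divisors hl).ne'
  have hlS : l.primeFactors ⊆ pr Z := by
    intro p hp
    have h1 := Nat.prime_of_mem_primeFactors hp
    have h2 := (Nat.dvd_of_mem_primeFactors hp).trans (Nat.dvd_of_mem_divisors hl)
    rw [Prime.dvd_finsetProd_iff h1.prime] at h2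
    obtain ⟨r, hr, h3⟩ := h2
    have h4 := h1.dvd_of_dvd_pow h3
    have h5 := (mem_pr.1 hr).2
    rw [(Nat.prime_dvd_prime_iff_eq h1 h5).1 h4]
    exact hr
  have haS := primeFactors_subset ha
  have hqS := primeFactors_subset hq
  have e1 : Pool.Agent.Y671.GL.mf ps lam (q * l) =
      ∏ p ∈ pr Z, ml ps lam p (q.factorization p + l.factorization p) := by
    rw [mult_prod (S := pr Z) mf_one (fun m n hmn => mf_mul hmn) (mul_ne_zero hq0 hl0) (by
      rw [Nat.primeFactors_mul hq0 hl0]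
      exact union_subset hqS hlS)]
    refine prod_congr rfl fun p hp => ?_
    rw [mf_prime_pow (mem_pr.1 hp).2, Nat.factorization_mul hq0 hl0, Finsupp.add_apply]
  have e2 : lam (a * l) = ∏ p ∈ pr Z, lam (p ^ (a.factorization p + l.factorization p)) := by
    rw [mult_prod (S := pr Z) H.one H.mul (mul_ne_zero ha0 hl0) (by
      rw [Nat.primeFactors_mul ha0 hl0]
      exact union_subset haS hlS)]
    refine prod_congr rfl fun p hp => ?_
    rw [Nat.factorization_mul ha0 hl0, Finsupp.add_apply]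
  have e3 : (l : ℂ) ^ (-z) = ∏ p ∈ pr Z, ((p : ℂ) ^ (-z)) ^ l.factorization p := by
    have h1 := mult_prod (M := ℂ) (f := fun n : ℕ => (n : ℂ) ^ (-z)) (by simp) (fun m n _ => by
      rw [Nat.cast_mul, Complex.natCast_mul_natCast_cpow]) hl0 hlS
    rw [h1]
    refine prod_congr rfl fun p _ => ?_
    rw [cpow_pow]
  rw [e1, e2, e3, map_prod, ← prod_mul_distrib, ← prod_mul_distrib]

/-- the partial sums over `l` -/
noncomputable def TZ (ps lam : ℕ → ℂ) (z : ℂ) (Z a q : ℕ) : ℂ :=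
  ∑ l ∈ (∏ p ∈ pr Z, p ^ 2).divisors,
    Pool.Agent.Y671.GL.mf ps lam (q * l) * conj (lam (a * l)) * (l : ℂ) ^ (-z)

theorem TZ_prod (H : Hk ps lam) (z : ℂ) {Z a q : ℕ} (ha : a ∈ Icc 1 Z) (hq : q ∈ Icc 1 Z) :
    TZ ps lam z Z a q =
      ∏ p ∈ pr Z, EE ps lam ((p : ℂ) ^ (-z)) p (a.factorization p) (q.factorization p) := by
  unfold TZ
  rw [sum_congr rfl fun l hl => term_prod H z ha hq hl]
  exact lemB (pr Z) (fun p hp => (mem_pr.1 hp).2) (fun p j => ml ps lam p (q.factorization p + j) *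
        conj (lam (p ^ (a.factorization p + j))) * ((p : ℂ) ^ (-z)) ^ j)

theorem norm_ppow {p : ℕ} (hp : p.Prime) (z : ℂ) : ‖(p : ℂ) ^ (-z)‖ = (p : ℝ) ^ (-z.re) := by
  rw [Complex.norm_natCast_cpow_of_pos hp.pos, neg_re]

/-- mf vanishes at numbers divisible by a cube -/
theorem mf_cube {n p : ℕ} (hp : p.Prime) (hn : n ≠ 0) (h : 3 ≤ n.factorization p) :
    Pool.Agent.Y671.GL.mf ps lam n = 0 := by
  have e1 := mult_prod (f := Pool.Agent.Y671.GL.mf ps lam) mf_one (fun m n hmn => mf_mul hmn) hn (subset_refl _)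
  rw [e1]
  have hpn : p ∈ n.primeFactors := by
    rw [Nat.mem_primeFactors]
    refine ⟨hp, ?_, hn⟩
    rw [hp.dvd_iff_one_le_factorization hn]
    omega
  apply prod_eq_zero hpn
  rw [mf_prime_pow hp]
  unfold ml
  rw [if_neg (by omega), if_neg (by omega), if_neg (by omega)]

/-- the limit -/
theorem TZ_tendsto (z : ℂ) (a q : ℕ) (hq : q ≠ 0)
    (hs : Summable (fun l : ℕ => Pool.Agent.Y671.GL.mf ps lam (q * l) * conj (lam (a * l)) * (l : ℂ) ^ (-z))) :
    Tendsto (fun Z => TZ ps lam z Z a q) atTop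
      (𝓝 (∑' l : ℕ, Pool.Agent.Y671.GL.mf ps lam (q * l) * conj (lam (a * l)) * (l : ℂ) ^ (-z))) := by
  obtain ⟨F, hF⟩ : ∃ F : ℕ → ℂ, F = fun l : ℕ =>
    Pool.Agent.Y671.GL.mf ps lam (q * l) * conj (lam (a * l)) * (l : ℂ) ^ (-z) := ⟨_, rfl⟩
  have hM0 : ∀ Z, (∏ p ∈ pr Z, p ^ 2) ≠ 0 := fun Z => by
    rw [prod_ne_zero_iff]
    exact fun p hp => pow_ne_zero _ (mem_pr.1 hp).2.ne_zero
  obtain ⟨A, hA⟩ : ∃ A : ℕ → Finset ℕ, A = fun Z => (∏ p ∈ pr Z, p ^ 2).divisors ∪ range Z := ⟨_, rfl⟩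
  have hAt : Tendsto A atTop atTop := by
    apply tendsto_atTop_finset_of_monotone
    · intro Z Z' hZ
      rw [hA]
      simp only
      apply union_subset_union
      · apply Nat.divisors_subset_of_dvd (hM0 Z')
        apply prod_dvd_prod_of_subset
        intro p hp
        rw [mem_pr] at hp ⊢
        exact ⟨hp.1.trans hZ, hp.2⟩
      · exact range_subset_range.2 hZ
    · intro x
      refine ⟨x + 1, ?_⟩
      rw [hA]
      simp only
      rw [mem_union, mem_range]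
      right
      omega
  have hF2 : Summable F := by rw [hF]; exact hs
  have h1 := hF2.hasSum.comp hAt
  have h2 : (fun Z => TZ ps lam z Z a q) = (fun s : Finset ℕ => ∑ b ∈ s, F b) ∘ A := by
    funext Z
    simp only [Function.comp]
    unfold TZ
    rw [hA, hF]
    simp only
    refine sum_subset subset_union_left fun l h3 h4 => ?_
    rcases Nat.eq_zero_or_pos l with hl | hl
    · rw [hl, mul_zero, mf_zero, zero_mul, zero_mul]
    · rw [mem_union] at h3
      have h5 : l ∈ range Z := h3.resolve_left h4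
      rw [mem_range] at h5
      have h6 : ∃ p : ℕ, p.Prime ∧ 3 ≤ l.factorization p := by
        by_contra hcon
        push Not at hcon
        apply h4
        rw [Nat.mem_divisors]
        refine ⟨?_, hM0 Z⟩
        have e1 := mult_prod (M := ℕ) (f := fun n : ℕ => n) rfl (fun _ _ _ => rfl) hl.ne'
          (primeFactors_subset (X := Z) (mem_Icc.2 ⟨hl, h5.le⟩))
        rw [e1]
        apply prod_dvd_prod_of_dvd
        intro p hp
        apply pow_dvd_pow
        have := hcon p (mem_pr.1 hp).2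
        omega
      obtain ⟨p, hp, h7⟩ := h6
      rw [mf_cube hp (mul_ne_zero hq hl.ne') (by
        rw [Nat.factorization_mul hq hl.ne', Finsupp.add_apply]
        omega), zero_mul, zero_mul]
  rw [h2]
  have h3 : ∑' l : ℕ, Pool.Agent.Y671.GL.mf ps lam (q * l) * conj (lam (a * l)) * (l : ℂ) ^ (-z) = ∑' l, F l := by
    rw [hF]
  rw [h3]
  exact h1

/-- summability of the series in `l` -/
theorem l_summable {th C : ℝ} (h : Dat ps lam th C) {z : ℂ} (hz : 1 < z.re) {a q : ℕ} (ha : a ≠ 0) (hq : q ≠ 0) :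
    Summable (fun l : ℕ => Pool.Agent.Y671.GL.mf ps lam (q * l) * conj (lam (a * l)) * (l : ℂ) ^ (-z)) := by
  have h1 := (h.sq_mf hz).comp_injective (fun x y hxy => Nat.eq_of_mul_eq_mul_left (Nat.pos_of_ne_zero hq) hxy :
    Function.Injective (fun l : ℕ => q * l))
  have h2 := (h.sq_lam hz).comp_injective (fun x y hxy => Nat.eq_of_mul_eq_mul_left (Nat.pos_of_ne_zero ha) hxy :
    Function.Injective (fun l : ℕ => a * l))
  have h3 := h1.mul_left ((q : ℝ) ^ z.re)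
  have h4 := h2.mul_left ((a : ℝ) ^ z.re)
  refine Summable.of_norm_bounded (h3.add h4) fun l => ?_
  simp only [Function.comp]
  have hq0 : (0 : ℝ) < q := by exact_mod_cast Nat.pos_of_ne_zero hq
  have ha0 : (0 : ℝ) < a := by exact_mod_cast Nat.pos_of_ne_zero ha
  have e1 : (q : ℝ) ^ z.re * (‖Pool.Agent.Y671.GL.mf ps lam (q * l)‖ ^ 2 * ((q * l : ℕ) : ℝ) ^ (-z.re)) =
      ‖Pool.Agent.Y671.GL.mf ps lam (q * l)‖ ^ 2 * (l : ℝ) ^ (-z.re) := by
    push_cast
    rw [Real.mul_rpow hq0.le (Nat.cast_nonneg _), Real.rpow_neg hq0.le]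
    field_simp
  have e2 : (a : ℝ) ^ z.re * (‖lam (a * l)‖ ^ 2 * ((a * l : ℕ) : ℝ) ^ (-z.re)) =
      ‖lam (a * l)‖ ^ 2 * (l : ℝ) ^ (-z.re) := by
    push_cast
    rw [Real.mul_rpow ha0.le (Nat.cast_nonneg _), Real.rpow_neg ha0.le]
    field_simp
  rw [e1, e2, norm_mul, norm_mul, RCLike.norm_conj]
  rcases Nat.eq_zero_or_pos l with hl | hl
  · rw [hl, Nat.cast_zero, Complex.zero_cpow (by
      intro h5
      rw [neg_eq_zero] at h5
      rw [h5, zero_re] at hz
      linarith), norm_zero, mul_zero]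
    have : (0 : ℝ) ≤ ((0 : ℕ) : ℝ) ^ (-z.re) := Real.rpow_nonneg (Nat.cast_nonneg _) _
    rw [Nat.cast_zero] at this
    positivity
  · rw [Complex.norm_natCast_cpow_of_pos hl, neg_re]
    have h5 : 0 ≤ (l : ℝ) ^ (-z.re) := Real.rpow_nonneg (Nat.cast_nonneg _) _
    have h6 : ‖Pool.Agent.Y671.GL.mf ps lam (q * l)‖ * ‖lam (a * l)‖ ≤
        ‖Pool.Agent.Y671.GL.mf ps lam (q * l)‖ ^ 2 + ‖lam (a * l)‖ ^ 2 := by
      nlinarith [sq_nonneg (‖Pool.Agent.Y671.GL.mf ps lam (q * l)‖ - ‖lam (a * l)‖),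
        sq_nonneg (‖Pool.Agent.Y671.GL.mf ps lam (q * l)‖), sq_nonneg (‖lam (a * l)‖)]
    calc _ ≤ (‖Pool.Agent.Y671.GL.mf ps lam (q * l)‖ ^ 2 + ‖lam (a * l)‖ ^ 2) * (l : ℝ) ^ (-z.re) :=
          mul_le_mul_of_nonneg_right h6 h5
      _ = _ := by ring

/-- the finite inequality -/
theorem fin_bound {th C : ℝ} (h : Dat ps lam th C) {z : ℂ} (hz : 1 < z.re) {X Z : ℕ} (hXZ : X ≤ Z) (hZ : 1 ≤ Z) :
    ∑ q ∈ Icc 1 X, ∑ a ∈ (Icc 1 X).filter (fun a => a.Coprime q), ((a : ℝ) * q) ^ (-z.re) *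
      ‖TZ ps lam z Z a q‖ ^ 2 ≤
      Real.exp (∑ p ∈ pr Z, (‖lam p‖ ^ 2 * (2 * ‖(p : ℂ) ^ (-z)‖ - 2 * ((p : ℂ) ^ (-z)).re) +
        KC th C * er th ‖lam p‖ p)) := by
  obtain ⟨A, hA⟩ : ∃ A : Finset (ℕ × ℕ), A = (Icc 1 X ×ˢ Icc 1 X).filter (fun x => x.2.Coprime x.1) := ⟨_, rfl⟩
  have hmem : ∀ x ∈ A, x.1 ∈ Icc 1 Z ∧ x.2 ∈ Icc 1 Z ∧ x.2.Coprime x.1 := by
    intro x hx
    rw [hA, mem_filter, mem_product, mem_Icc, mem_Icc] at hx
    rw [mem_Icc, mem_Icc]
    refine ⟨⟨hx.1.1.1, hx.1.1.2.trans hXZ⟩, ⟨hx.1.2.1, hx.1.2.2.trans hXZ⟩, hx.2⟩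
  have e0 : ∑ q ∈ Icc 1 X, ∑ a ∈ (Icc 1 X).filter (fun a => a.Coprime q), ((a : ℝ) * q) ^ (-z.re) *
      ‖TZ ps lam z Z a q‖ ^ 2 = ∑ x ∈ A, ((x.2 : ℝ) * x.1) ^ (-z.re) * ‖TZ ps lam z Z x.2 x.1‖ ^ 2 := by
    rw [hA, sum_filter, sum_product]
    refine sum_congr rfl fun q _ => ?_
    rw [sum_filter]
  rw [e0]
  have h1 := gen A (pr Z) (RR Z) (fun x p => (x.2.factorization p, x.1.factorization p))
    (fun p k => ‖(p : ℂ) ^ (-z)‖ ^ (k.1 + k.2) * ‖EE ps lam ((p : ℂ) ^ (-z)) p k.1 k.2‖ ^ 2)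
    (fun p k => by positivity)
    (fun x hx y hy hxy => by
      obtain ⟨hx1, hx2, _⟩ := hmem x hx
      obtain ⟨hy1, hy2, _⟩ := hmem y hy
      apply Prod.ext
      · exact fac_inj hx1 hy1 fun p hp => (Prod.mk.inj (hxy p hp)).2
      · exact fac_inj hx2 hy2 fun p hp => (Prod.mk.inj (hxy p hp)).1)
    (fun x hx p hp => by
      obtain ⟨hx1, hx2, hx3⟩ := hmem x hx
      have hpp := (mem_pr.1 hp).2
      have hz : x.2.factorization p = 0 ∨ x.1.factorization p = 0 := by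
        by_contra hcon
        push Not at hcon
        rw [mem_Icc] at hx1 hx2
        have h3 := Nat.dvd_gcd (Nat.dvd_of_factorization_pos hcon.1) (Nat.dvd_of_factorization_pos hcon.2)
        rw [hx3.gcd_eq_one] at h3
        exact hpp.one_lt.ne' (Nat.dvd_one.1 h3)
      have h4 := fac_lt (p := p) hx1
      have h5 := fac_lt (p := p) hx2
      unfold RR
      rw [mem_union, mem_image, mem_image]
      by_cases h6 : x.1.factorization p = 0
      · left
        exact ⟨x.2.factorization p, by rw [mem_range]; exact h5, by rw [h6]⟩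
      · right
        have h7 := hz.resolve_right h6
        exact ⟨x.1.factorization p, by rw [mem_Icc]; omega, by rw [h7]⟩)
  have e1 : ∑ x ∈ A, ((x.2 : ℝ) * x.1) ^ (-z.re) * ‖TZ ps lam z Z x.2 x.1‖ ^ 2 =
      ∑ x ∈ A, ∏ p ∈ pr Z, ‖(p : ℂ) ^ (-z)‖ ^ (x.2.factorization p + x.1.factorization p) *
        ‖EE ps lam ((p : ℂ) ^ (-z)) p (x.2.factorization p) (x.1.factorization p)‖ ^ 2 := by
    refine sum_congr rfl fun x hx => ?_
    obtain ⟨hx1, hx2, _⟩ := hmem x hx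
    have hne : ∀ n ∈ Icc 1 Z, n ≠ 0 := fun n hn => by rw [mem_Icc] at hn; omega
    have e2 : ∀ n ∈ Icc 1 Z, (n : ℝ) ^ (-z.re) = ∏ p ∈ pr Z, ‖(p : ℂ) ^ (-z)‖ ^ n.factorization p := by
      intro n hn
      have h2 := mult_prod (M := ℝ) (f := fun n : ℕ => (n : ℝ) ^ (-z.re)) (by simp) (fun m n _ => by
        push_cast
        rw [Real.mul_rpow (Nat.cast_nonneg _) (Nat.cast_nonneg _)]) (hne n hn) (primeFactors_subset hn)
      rw [h2]
      refine prod_congr rfl fun p hp => ?_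
      rw [norm_ppow (mem_pr.1 hp).2]
      push_cast
      rw [← Real.rpow_natCast, ← Real.rpow_mul (Nat.cast_nonneg _), mul_comm,
        Real.rpow_mul (Nat.cast_nonneg _), Real.rpow_natCast]
    rw [TZ_prod h.hk z hx2 hx1, norm_prod, ← prod_pow, Real.mul_rpow (Nat.cast_nonneg _) (Nat.cast_nonneg _),
      e2 _ hx2, e2 _ hx1, ← prod_mul_distrib, ← prod_mul_distrib]
    refine prod_congr rfl fun p _ => ?_
    rw [pow_add]
  rw [e1]
  refine h1.trans (prod_le_exp (fun p _ => sum_nonneg fun k _ => by positivity) fun p hp => ?_)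
  have hpp := (mem_pr.1 hp).2
  refine h.loc_sum hpp ?_ hZ
  rw [norm_ppow hpp, show (1 : ℝ) / p = (p : ℝ) ^ (-1 : ℝ) by rw [Real.rpow_neg_one, one_div]]
  exact Real.rpow_le_rpow_of_exponent_le (by exact_mod_cast hpp.one_le) (by linarith)

theorem Dat.eu2 {th C : ℝ} (h : Dat ps lam th C) : ∃ K : ℝ, 0 < K ∧ ∀ (L τ : ℝ) (X : ℕ), 1 ≤ L →
    ∑ q ∈ Icc 1 X, ∑ a ∈ (Icc 1 X).filter (fun a => a.Coprime q), ((a : ℝ) * q) ^ (-(1 + 1 / L)) *
      ‖∑' l : ℕ, Pool.Agent.Y671.GL.mf ps lam (q * l) * conj (lam (a * l)) *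
        (l : ℂ) ^ (-(1 + (1 + I * τ) / L))‖ ^ 2 ≤ K * (1 + |τ|) ^ 16 := by
  have h0 := h.th0
  have h1 := h.th1
  have hC := h.C1
  obtain ⟨K1, hK1, h2⟩ := h.err
  obtain ⟨K2, hK2, h3⟩ := h.rs.main (fun n => sq_nonneg _) (by linarith)
  have hKC : 0 ≤ KC th C := by
    unfold KC
    have := (kt_pos h1).le
    positivity
  refine ⟨Real.exp (K2 + KC th C * K1), Real.exp_pos _, fun L τ X hL => ?_⟩
  have hL0 : 0 < L := by linarith
  have hτ : 0 ≤ |τ| := abs_nonneg τ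
  obtain ⟨z, hzd⟩ : ∃ z : ℂ, z = 1 + (1 + I * τ) / L := ⟨_, rfl⟩
  have hzre : z.re = 1 + 1 / L := by
    rw [hzd, add_re, one_re, Complex.div_ofReal_re]
    simp
  have hzim : z.im = τ / L := by
    rw [hzd, add_im, one_im, Complex.div_ofReal_im]
    simp
  have hz1 : 1 < z.re := by
    rw [hzre]
    have : 0 < 1 / L := by positivity
    linarith
  rw [← hzd, ← hzre]
  have hlim : Tendsto (fun Z => ∑ q ∈ Icc 1 X, ∑ a ∈ (Icc 1 X).filter (fun a => a.Coprime q),
      ((a : ℝ) * q) ^ (-z.re) * ‖TZ ps lam z Z a q‖ ^ 2) atTop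
      (𝓝 (∑ q ∈ Icc 1 X, ∑ a ∈ (Icc 1 X).filter (fun a => a.Coprime q), ((a : ℝ) * q) ^ (-z.re) *
      ‖∑' l : ℕ, Pool.Agent.Y671.GL.mf ps lam (q * l) * conj (lam (a * l)) * (l : ℂ) ^ (-z)‖ ^ 2)) := by
    refine tendsto_finsetSum _ fun q hq => tendsto_finsetSum _ fun a ha => ?_
    rw [mem_Icc] at hq
    rw [mem_filter, mem_Icc] at ha
    have hq0 : q ≠ 0 := by omega
    have ha0 : a ≠ 0 := by omega
    exact ((TZ_tendsto z a q hq0 (l_summable h hz1 ha0 hq0)).norm.pow 2).const_mul _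
  refine le_of_tendsto hlim ?_
  rw [eventually_atTop]
  refine ⟨max X 1, fun Z hZ => ?_⟩
  have hXZ : X ≤ Z := (le_max_left _ _).trans hZ
  have hZ1 : 1 ≤ Z := (le_max_right _ _).trans hZ
  refine (fin_bound h hz1 hXZ hZ1).trans ?_
  have h4 : (1 + |τ|) ^ 16 = Real.exp (16 * Real.log (1 + |τ|)) := by
    rw [mul_comm, Real.exp_mul, Real.exp_log (by positivity)]
    norm_cast
  rw [h4, ← Real.exp_add]
  apply Real.exp_le_exp.2
  rw [sum_add_distrib, ← mul_sum]
  have h9 := mul_le_mul_of_nonneg_left (h2 Z) hKC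
  have h10 := h3 L τ Z (fun p => 2 - 2 * Real.cos (τ / L * Real.log p)) hL (fun p => by
      have := Real.neg_one_le_cos (τ / L * Real.log p)
      linarith) (fun p => by
      have h5 := Real.one_sub_sq_div_two_le_cos (x := τ / L * Real.log p)
      have hl : 0 ≤ Real.log p := Real.log_natCast_nonneg p
      have h6 : (τ / L * Real.log p) ^ 2 ≤ (Real.log p * (1 + |τ|) / L) ^ 2 := by
        rw [← sq_abs (τ / L * Real.log p)]
        apply pow_le_pow_left₀ (abs_nonneg _)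
        rw [abs_mul, abs_div, abs_of_pos hL0, abs_of_nonneg hl]
        calc |τ| / L * Real.log p = Real.log p * |τ| / L := by ring
          _ ≤ Real.log p * (1 + |τ|) / L := by gcongr; linarith
      linarith)
  have h11 : ∑ p ∈ pr Z, ‖lam p‖ ^ 2 * (2 * ‖(p : ℂ) ^ (-z)‖ - 2 * ((p : ℂ) ^ (-z)).re) =
      ∑ p ∈ pr Z, ‖lam p‖ ^ 2 * (p : ℝ) ^ (-(1 + 1 / L)) * (2 - 2 * Real.cos (τ / L * Real.log p)) := by
    refine sum_congr rfl fun p hp => ?_
    have hpp := (mem_pr.1 hp).2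
    have e1 : ((p : ℂ) ^ (-z)).re = (p : ℝ) ^ (-z.re) * Real.cos (z.im * Real.log p) := by
      rw [cpow_eq_exp hpp.ne_zero, Complex.exp_re]
      have e2 : (-(z * ((Real.log p : ℝ) : ℂ))).re = -z.re * Real.log p := by
        rw [neg_re, Complex.re_mul_ofReal]
        ring
      have e3 : (-(z * ((Real.log p : ℝ) : ℂ))).im = -(z.im * Real.log p) := by
        rw [neg_im, Complex.im_mul_ofReal]
      rw [e2, e3, Real.cos_neg, Real.rpow_def_of_pos (by exact_mod_cast hpp.pos)]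
      congr 2
      ring
    rw [norm_ppow hpp, e1, hzim, hzre]
    ring
  rw [h11]
  linarith

theorem eu2 : Pool.Agent.Y671.GL.S_EU2 := by
  intro k N ps lam h
  obtain ⟨th, C, hd⟩ := dat_of_frm h
  exact hd.eu2

end Pool.Agent.Y771.GL
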