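import Pool.Agent.Y771.GL.PS

set_option autoImplicit false

/-! # GD2, tasks EU1, EU2: combinatorics of Euler products -/

namespace Pool.Agent.Y771.GL

open Finset

/-- a sum over numbers (or pairs) is at most a product of local sums -/
theorem gen {α κ : Type*} [DecidableEq α] [DecidableEq κ] (A : Finset α) (S : Finset ℕ) (R : Finset κ)
    (e : α → ℕ → κ) (h : ℕ → κ → ℝ) (h0 : ∀ p k, 0 ≤ h p k)
    (hinj : ∀ x ∈ A, ∀ y ∈ A, (∀ p ∈ S, e x p = e y p) → x = y)
    (hmem : ∀ x ∈ A, ∀ p ∈ S, e x p ∈ R) :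
    ∑ x ∈ A, ∏ p ∈ S, h p (e x p) ≤ ∏ p ∈ S, ∑ k ∈ R, h p k := by
  classical
  rw [prod_sum]
  have hI : Set.InjOn (fun x => (fun (p : ℕ) (_ : p ∈ S) => e x p)) (A : Set α) := by
    intro x hx y hy hxy
    refine hinj x (by simpa using hx) y (by simpa using hy) fun p hp => ?_
    exact congrFun (congrFun hxy p) hp
  have e1 : ∑ x ∈ A, ∏ p ∈ S, h p (e x p) =
      ∑ g ∈ A.image (fun x => (fun (p : ℕ) (_ : p ∈ S) => e x p)), ∏ p ∈ S.attach, h p.1 (g p.1 p.2) := by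
    rw [sum_image hI]
    refine sum_congr rfl fun x _ => ?_
    exact (prod_attach S (fun p => h p (e x p))).symm
  rw [e1]
  refine sum_le_sum_of_subset_of_nonneg ?_ fun g _ _ => prod_nonneg fun p _ => h0 _ _
  intro g hg
  rw [mem_image] at hg
  obtain ⟨x, hx, rfl⟩ := hg
  rw [mem_pi]
  exact fun p hp => hmem x hx p hp

theorem fac_inj {X : ℕ} {m n : ℕ} (hm : m ∈ Icc 1 X) (hn : n ∈ Icc 1 X)
    (h : ∀ p ∈ pr X, m.factorization p = n.factorization p) : m = n := by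
  rw [mem_Icc] at hm hn
  refine Nat.eq_of_factorization_eq (by omega) (by omega) fun p => ?_
  by_cases hp : p ∈ pr X
  · exact h p hp
  · have key : ∀ k : ℕ, k ≤ X → 1 ≤ k → k.factorization p = 0 := by
      intro k hk hk1
      rw [mem_pr] at hp
      by_cases hpp : p.Prime
      · apply Nat.factorization_eq_zero_of_not_dvd
        intro hd
        exact hp ⟨(Nat.le_of_dvd (by omega) hd).trans hk, hpp⟩
      · exact Nat.factorization_eq_zero_of_not_prime k hpp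
    rw [key m hm.2 hm.1, key n hn.2 hn.1]

theorem fac_lt {X n p : ℕ} (hn : n ∈ Icc 1 X) : n.factorization p < X + 1 := by
  rw [mem_Icc] at hn
  have := Nat.factorization_lt (n := n) p (by omega)
  omega

/-- a multiplicative function is the product of its local values -/
theorem mult_prod {M : Type*} [CommMonoid M] {f : ℕ → M} (h1 : f 1 = 1)
    (hm : ∀ m n : ℕ, Nat.Coprime m n → f (m * n) = f m * f n) {n : ℕ} {S : Finset ℕ} (hn : n ≠ 0)
    (hS : n.primeFactors ⊆ S) : f n = ∏ p ∈ S, f (p ^ n.factorization p) := by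
  rw [Nat.multiplicative_factorization f (fun x y h => hm x y h) h1 hn, Finsupp.prod]
  refine prod_subset ?_ fun p _ hp => ?_
  · rwa [Nat.support_factorization]
  · rw [Finsupp.mem_support_iff, not_not] at hp
    rw [hp, pow_zero, h1]

theorem primeFactors_subset {X n : ℕ} (hn : n ∈ Icc 1 X) : n.primeFactors ⊆ pr X := by
  intro p hp
  rw [mem_Icc] at hn
  rw [mem_pr]
  exact ⟨(Nat.le_of_mem_primeFactors hp).trans hn.2, Nat.prime_of_mem_primeFactors hp⟩

theorem sum_le_prod {f : ℕ → ℝ} (h0 : ∀ n, 0 ≤ f n) (h1 : f 1 = 1)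
    (hm : ∀ m n : ℕ, Nat.Coprime m n → f (m * n) = f m * f n) (X : ℕ) :
    ∑ n ∈ Icc 1 X, f n ≤ ∏ p ∈ pr X, ∑ r ∈ range (X + 1), f (p ^ r) := by
  have h2 := gen (Icc 1 X) (pr X) (range (X + 1)) (fun n p => n.factorization p) (fun p r => f (p ^ r))
    (fun p k => h0 _) (fun x hx y hy h => fac_inj hx hy h)
    (fun x hx p _ => by rw [mem_range]; exact fac_lt hx)
  refine le_trans (le_of_eq ?_) h2
  refine sum_congr rfl fun n hn => ?_
  refine mult_prod h1 hm ?_ (primeFactors_subset hn)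
  rw [mem_Icc] at hn
  omega

/-- exponential form -/
theorem prod_le_exp {S : Finset ℕ} {g E : ℕ → ℝ} (h0 : ∀ p ∈ S, 0 ≤ g p) (h : ∀ p ∈ S, g p ≤ 1 + E p) :
    ∏ p ∈ S, g p ≤ Real.exp (∑ p ∈ S, E p) := by
  rw [Real.exp_sum]
  refine prod_le_prod h0 fun p hp => ?_
  have := Real.add_one_le_exp (E p)
  linarith [h p hp]

theorem sum_le_exp {f : ℕ → ℝ} (h0 : ∀ n, 0 ≤ f n) (h1 : f 1 = 1)
    (hm : ∀ m n : ℕ, Nat.Coprime m n → f (m * n) = f m * f n) (X : ℕ) :
    ∑ n ∈ Icc 1 X, f n ≤ Real.exp (∑ p ∈ pr X, ∑ r ∈ Icc 1 X, f (p ^ r)) := by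
  refine (sum_le_prod h0 h1 hm X).trans ?_
  refine prod_le_exp (fun p _ => sum_nonneg fun r _ => h0 _) fun p _ => ?_
  rw [sum_range_succ']
  rw [pow_zero, h1, add_comm]
  have : ∑ k ∈ range X, f (p ^ (k + 1)) = ∑ r ∈ Icc 1 X, f (p ^ r) := by
    rw [range_eq_Ico, sum_Ico_add' (fun r => f (p ^ r)) 0 X 1]
    rfl
  rw [this]

end Pool.Agent.Y771.GL
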