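import Pool.Agent.Y671.GL.Spec
import Pool.Agent.Y771.GL.Comb

set_option autoImplicit false

/-! # GD2, task MF: the Dirichlet inverse of the Hecke eigenvalues -/

namespace Pool.Agent.Y771.GL

open Complex Finset
open scoped ComplexConjugate
open Pool.Agent.Y671.GL (mf)

/-- Hecke multiplicativity. -/
structure Hk (ps lam : ℕ → ℂ) : Prop where
  one : lam 1 = 1
  mul : ∀ m n : ℕ, Nat.Coprime m n → lam (m * n) = lam m * lam n
  pow : ∀ p j : ℕ, p.Prime → lam (p ^ (j + 2)) = lam p * lam (p ^ (j + 1)) - ps p * lam (p ^ j)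

variable {ps lam : ℕ → ℂ}

/-- local values of the inverse -/
noncomputable def ml (ps lam : ℕ → ℂ) (p j : ℕ) : ℂ :=
  if j = 0 then 1 else if j = 1 then -lam p else if j = 2 then ps p else 0

theorem mf_one : mf ps lam 1 = 1 := by
  unfold mf
  simp

theorem mf_zero : mf ps lam 0 = 0 := by
  unfold mf
  simp

theorem mf_prime_pow {p : ℕ} (hp : p.Prime) (j : ℕ) : mf ps lam (p ^ j) = ml ps lam p j := by
  rcases Nat.eq_zero_or_pos j with rfl | hj
  · simp [mf_one, ml]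
  · unfold mf ml
    rw [if_neg (pow_ne_zero _ hp.ne_zero), Nat.primeFactors_prime_pow hj.ne' hp, prod_singleton,
      Nat.Prime.factorization_pow hp, Finsupp.single_eq_same, if_neg hj.ne']

theorem mf_mul {m n : ℕ} (h : Nat.Coprime m n) : mf ps lam (m * n) = mf ps lam m * mf ps lam n := by
  by_cases hm : m = 0
  · subst hm
    simp [mf_zero]
  by_cases hn : n = 0
  · subst hn
    simp [mf_zero]
  unfold mf
  rw [if_neg (mul_ne_zero hm hn), if_neg hm, if_neg hn, h.primeFactors_mul,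
    prod_union h.disjoint_primeFactors]
  congr 1
  · refine prod_congr rfl fun p hp => ?_
    have h1 : (m * n).factorization p = m.factorization p := by
      rw [Nat.factorization_mul hm hn, Finsupp.add_apply]
      have : n.factorization p = 0 := by
        apply Nat.factorization_eq_zero_of_not_dvd
        intro h2
        have h3 := Nat.dvd_of_mem_primeFactors hp
        have h4 := Nat.dvd_gcd h3 h2
        rw [h.gcd_eq_one] at h4
        exact (Nat.prime_of_mem_primeFactors hp).one_lt.ne' (Nat.dvd_one.1 h4)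
      rw [this, add_zero]
    rw [h1]
  · refine prod_congr rfl fun p hp => ?_
    have h1 : (m * n).factorization p = n.factorization p := by
      rw [Nat.factorization_mul hm hn, Finsupp.add_apply]
      have : m.factorization p = 0 := by
        apply Nat.factorization_eq_zero_of_not_dvd
        intro h2
        have h3 := Nat.dvd_of_mem_primeFactors hp
        have h4 := Nat.dvd_gcd h2 h3
        rw [h.gcd_eq_one] at h4
        exact (Nat.prime_of_mem_primeFactors hp).one_lt.ne' (Nat.dvd_one.1 h4)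
      rw [this, zero_add]
    rw [h1]

/-- as arithmetic functions -/
noncomputable def af (f : ℕ → ℂ) : ArithmeticFunction ℂ := ⟨fun n => if n = 0 then 0 else f n, by simp⟩

theorem af_apply {f : ℕ → ℂ} {n : ℕ} (hn : n ≠ 0) : af f n = f n := by
  show (if n = 0 then 0 else f n) = f n
  rw [if_neg hn]

theorem af_mult {f : ℕ → ℂ} (h1 : f 1 = 1) (h : ∀ m n : ℕ, Nat.Coprime m n → f (m * n) = f m * f n) :
    (af f).IsMultiplicative := by
  refine ⟨by rw [af_apply one_ne_zero, h1], ?_⟩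
  intro m n hmn
  by_cases hm : m = 0
  · subst hm; simp
  by_cases hn : n = 0
  · subst hn; simp
  rw [af_apply hm, af_apply hn, af_apply (mul_ne_zero hm hn), h m n hmn]

theorem conv_prime_pow (H : Hk ps lam) {p : ℕ} (hp : p.Prime) (k : ℕ) (hk : 1 ≤ k) :
    ∑ i ∈ range (k + 1), ml ps lam p i * lam (p ^ (k - i)) = 0 := by
  rcases Nat.lt_or_ge k 2 with h | h
  · have : k = 1 := by omega
    subst this
    rw [sum_range_succ, sum_range_one]
    simp [ml, H.one]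
  · obtain ⟨j, rfl⟩ : ∃ j, k = j + 2 := ⟨k - 2, by omega⟩
    rw [← Finset.sum_subset (s₁ := range 3)]
    · rw [sum_range_succ, sum_range_succ, sum_range_one]
      have e1 : j + 2 - 0 = j + 2 := rfl
      have e2 : j + 2 - 1 = j + 1 := rfl
      have e3 : j + 2 - 2 = j := rfl
      rw [e1, e2, e3, H.pow p j hp]
      simp only [ml]
      norm_num
      ring
    · intro x hx
      simp only [mem_range] at hx ⊢
      omega
    · intro x hx hx2
      simp only [mem_range] at hx hx2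
      unfold ml
      rw [if_neg (by omega), if_neg (by omega), if_neg (by omega), zero_mul]

theorem inverse (H : Hk ps lam) (n : ℕ) (_ : 1 ≤ n) :
    ∑ d ∈ n.divisors, mf ps lam d * lam (n / d) = if n = 1 then 1 else 0 := by
  have hA : (af (mf ps lam)).IsMultiplicative := af_mult mf_one fun m n h => mf_mul h
  have hB : (af lam).IsMultiplicative := af_mult H.one H.mul
  have hprod : af (mf ps lam) * af lam = 1 := by
    rw [(hA.mul hB).eq_iff_eq_on_prime_powers _ _ ArithmeticFunction.isMultiplicative_one]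
    intro p k hp
    rcases Nat.eq_zero_or_pos k with rfl | hk
    · simp [ArithmeticFunction.mul_apply, af_apply, mf_one, H.one]
    · rw [ArithmeticFunction.mul_apply, Nat.sum_divisorsAntidiagonal
        (fun a b => af (mf ps lam) a * af lam b), Nat.divisors_prime_pow hp, sum_map]
      rw [ArithmeticFunction.one_apply_ne (by
        have := Nat.one_lt_pow hk.ne' hp.one_lt
        omega)]
      rw [← conv_prime_pow H hp k hk]
      refine sum_congr rfl fun i hi => ?_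
      rw [mem_range] at hi
      have h1 : p ^ i ≠ 0 := pow_ne_zero _ hp.ne_zero
      have h2 : p ^ k / p ^ i = p ^ (k - i) := Nat.pow_div (by omega) hp.pos
      simp only [Function.Embedding.coeFn_mk]
      rw [h2, af_apply h1, af_apply (pow_ne_zero _ hp.ne_zero), mf_prime_pow hp]
  have h2 := congrArg (fun f => f n) hprod
  simp only [ArithmeticFunction.mul_apply] at h2
  rw [Nat.sum_divisorsAntidiagonal (fun a b => af (mf ps lam) a * af lam b),
    ArithmeticFunction.one_apply] at h2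
  rw [← h2]
  refine sum_congr rfl fun d hd => ?_
  have h3 := Nat.pos_of_mem_divisors hd
  have h4 : n / d ≠ 0 := by
    have := Nat.div_pos (Nat.divisor_le hd) h3
    omega
  rw [af_apply h3.ne', af_apply h4]

theorem hk_of_frm {k N : ℕ} {ps lam : ℕ → ℂ} (h : Pool.Agent.Y671.GL.Frm k N ps lam) : Hk ps lam :=
  ⟨h.one, h.mul, h.pow⟩

/-! ## Data -/

structure Dat (ps lam : ℕ → ℂ) (th C : ℝ) : Prop where
  hk : Hk ps lam
  ps_le : ∀ p, ‖ps p‖ ≤ 1
  th0 : 0 ≤ th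
  th1 : th < 1 / 2
  C1 : 1 ≤ C
  bd : ∀ n : ℕ, 1 ≤ n → ‖lam n‖ ≤ C * (n : ℝ) ^ th
  rs : RSb (fun n => ‖lam n‖ ^ 2) C

theorem dat_of_frm {k N : ℕ} (h : Pool.Agent.Y671.GL.Frm k N ps lam) : ∃ th C : ℝ, Dat ps lam th C := by
  obtain ⟨th, C1, h0, h1, h2⟩ := h.ram
  obtain ⟨C2, h3⟩ := h.rs
  refine ⟨th, max 1 (max C1 C2), ⟨hk_of_frm h, h.ps_le, h0, h1, le_max_left _ _, fun n hn => ?_, fun x hx => ?_⟩⟩
  · refine (h2 n hn).trans (mul_le_mul_of_nonneg_right ?_ (Real.rpow_nonneg (Nat.cast_nonneg _) _))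
    exact (le_max_left _ _).trans (le_max_right _ _)
  · rcases Nat.lt_or_ge x 2 with hx2 | hx2
    · have : x = 1 := by omega
      subst this
      have h4 : pr 1 = ∅ := by
        ext p
        rw [mem_pr]
        simp only [notMem_empty, iff_false, not_and]
        intro h5 h6
        have := h6.two_le
        omega
      rw [h4, sum_empty]
      have h5 : (1 : ℝ) ≤ max 1 (max C1 C2) := le_max_left _ _
      simp only [Nat.cast_one, Real.log_one, mul_zero, zero_add]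
      linarith
    · have h4 := h3 x (by exact_mod_cast hx2)
      rw [Nat.floor_natCast] at h4
      refine h4.trans ?_
      have h5 : C2 ≤ max 1 (max C1 C2) := (le_max_right _ _).trans (le_max_right _ _)
      linarith

namespace Dat

variable {th C : ℝ}

theorem bp (h : Dat ps lam th C) {p : ℕ} (hp : p.Prime) (j : ℕ) : ‖lam (p ^ j)‖ ≤ C * ((p : ℝ) ^ th) ^ j := by
  have h1 := h.bd (p ^ j) (Nat.one_le_pow _ _ hp.pos)
  have h2 : ((p ^ j : ℕ) : ℝ) ^ th = ((p : ℝ) ^ th) ^ j := by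
    push_cast
    rw [← Real.rpow_natCast, ← Real.rpow_mul (Nat.cast_nonneg _), mul_comm,
      Real.rpow_mul (Nat.cast_nonneg _), Real.rpow_natCast]
  rwa [h2] at h1

theorem bp1 (h : Dat ps lam th C) {p : ℕ} (hp : p.Prime) : ‖lam p‖ ≤ C * (p : ℝ) ^ th := by
  have := h.bp hp 1
  simpa using this

/-- the recursion, in absolute value -/
theorem rc (h : Dat ps lam th C) {p : ℕ} (hp : p.Prime) (j : ℕ) :
    ‖lam (p ^ (j + 2))‖ ≤ ‖lam p‖ * ‖lam (p ^ (j + 1))‖ + ‖lam (p ^ j)‖ := by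
  rw [h.hk.pow p j hp]
  refine (norm_sub_le _ _).trans ?_
  rw [norm_mul, norm_mul]
  have := mul_le_mul_of_nonneg_right (h.ps_le p) (norm_nonneg (lam (p ^ j)))
  linarith

end Dat

/-! ## Local bounds -/

theorem geo {y : ℝ} (hy0 : 0 ≤ y) (hy1 : y < 1) (X : ℕ) : ∑ r ∈ Icc 2 X, y ^ (r - 2) ≤ 1 / (1 - y) := by
  have h1 : ∑ r ∈ Icc 2 X, y ^ (r - 2) ≤ ∑ r ∈ range X, y ^ r := by
    have h2 : ∑ r ∈ Icc 2 X, y ^ (r - 2) = ∑ r ∈ (Icc 2 X).image (fun r => r - 2), y ^ r := by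
      rw [sum_image]
      intro a ha b hb hab
      simp only [coe_Icc, Set.mem_Icc] at ha hb hab
      omega
    rw [h2]
    refine sum_le_sum_of_subset_of_nonneg ?_ fun r _ _ => pow_nonneg hy0 r
    intro r hr
    rw [mem_image] at hr
    obtain ⟨s, hs, rfl⟩ := hr
    rw [mem_Icc] at hs
    rw [mem_range]
    omega
  refine h1.trans ?_
  have h3 := (summable_geometric_of_lt_one hy0 hy1).sum_le_tsum (range X) (fun i _ => pow_nonneg hy0 i)
  rw [tsum_geometric_of_lt_one hy0 hy1] at h3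
  rwa [one_div]

/-- the error terms -/
noncomputable def er (th : ℝ) (l : ℝ) (p : ℕ) : ℝ := (l ^ 2 + 1) * (p : ℝ) ^ (-(2 - 2 * th))

theorem er_nonneg (th l : ℝ) (p : ℕ) : 0 ≤ er th l p :=
  mul_nonneg (by positivity) (Real.rpow_nonneg (Nat.cast_nonneg _) _)

/-- constants -/
noncomputable def kt (th : ℝ) : ℝ := 1 / (1 - (2 : ℝ) ^ (-(1 - 2 * th)))

theorem kt_aux {th : ℝ} (h1 : th < 1 / 2) : (2 : ℝ) ^ (-(1 - 2 * th)) < 1 := by
  apply Real.rpow_lt_one_of_one_lt_of_neg (by norm_num) (by linarith)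

theorem kt_pos {th : ℝ} (h1 : th < 1 / 2) : 0 < kt th := by
  unfold kt
  have := kt_aux h1
  exact one_div_pos.2 (by linarith)

theorem tail {th D ρ l : ℝ} {p : ℕ} (hp : 2 ≤ p) (h0 : 0 ≤ th) (h1 : th < 1 / 2)
    (hρ0 : 0 ≤ ρ) (hρ : ρ ≤ 1 / p) (e : ℕ → ℝ) (he0 : ∀ r, 0 ≤ e r)
    (he : ∀ r, 2 ≤ r → e r ≤ D * (l * ((p : ℝ) ^ th) ^ (r - 1) + ((p : ℝ) ^ th) ^ (r - 2))) (X : ℕ) :
    ∑ r ∈ Icc 2 X, ρ ^ r * e r ^ 2 ≤ 2 * D ^ 2 * kt th * er th l p := by
  have hp0 : (0 : ℝ) < p := by positivity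
  obtain ⟨x, hx⟩ : ∃ x : ℝ, x = (p : ℝ) ^ th := ⟨_, rfl⟩
  obtain ⟨y, hy⟩ : ∃ y : ℝ, y = (p : ℝ) ^ (-(1 - 2 * th)) := ⟨_, rfl⟩
  have hx0 : 0 < x := by rw [hx]; positivity
  have hy0 : 0 < y := by rw [hy]; positivity
  have hxy : x ^ 2 = y * p := by
    rw [hx, hy, ← Real.rpow_natCast, ← Real.rpow_mul hp0.le]
    nth_rewrite 3 [← Real.rpow_one (p : ℝ)]
    rw [← Real.rpow_add hp0]
    congr 1
    push_cast
    ring
  have hy2 : y ≤ (2 : ℝ) ^ (-(1 - 2 * th)) := by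
    rw [hy]
    apply Real.rpow_le_rpow_of_nonpos (by norm_num) (by exact_mod_cast hp) (by linarith)
  have hy1 : y < 1 := lt_of_le_of_lt hy2 (kt_aux h1)
  have hq : (p : ℝ) ^ (-(2 - 2 * th)) = y / p := by
    rw [hy]
    rw [eq_div_iff hp0.ne']
    nth_rewrite 2 [← Real.rpow_one (p : ℝ)]
    rw [← Real.rpow_add hp0]
    congr 1
    ring
  have hq2 : 1 / (p : ℝ) ^ 2 ≤ y / p := by
    have : 1 / (p : ℝ) ≤ y := by
      rw [hy, one_div, ← Real.rpow_neg_one]
      apply Real.rpow_le_rpow_of_exponent_le (by exact_mod_cast (by omega : 1 ≤ p)) (by linarith)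
    calc 1 / (p : ℝ) ^ 2 = 1 / p / p := by field_simp
      _ ≤ y / p := by gcongr
  have hterm : ∀ r ∈ Icc 2 X, ρ ^ r * e r ^ 2 ≤ y ^ (r - 2) * (2 * D ^ 2 * er th l p) := by
    intro r hr
    rw [mem_Icc] at hr
    obtain ⟨j, rfl⟩ : ∃ j, r = j + 2 := ⟨r - 2, by omega⟩
    have h2 := he (j + 2) (by omega)
    rw [← hx] at h2
    have e1 : j + 2 - 1 = j + 1 := rfl
    have e2 : j + 2 - 2 = j := rfl
    rw [e1, e2] at h2
    rw [e2]
    have h3 : e (j + 2) ^ 2 ≤ 2 * D ^ 2 * (l ^ 2 * (x ^ 2) ^ (j + 1) + (x ^ 2) ^ j) := by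
      calc e (j + 2) ^ 2 ≤ (D * (l * x ^ (j + 1) + x ^ j)) ^ 2 := pow_le_pow_left₀ (he0 _) h2 2
        _ ≤ 2 * D ^ 2 * ((l * x ^ (j + 1)) ^ 2 + (x ^ j) ^ 2) := by
            have h4 : (l * x ^ (j + 1) + x ^ j) ^ 2 ≤ 2 * ((l * x ^ (j + 1)) ^ 2 + (x ^ j) ^ 2) := by
              nlinarith [sq_nonneg (l * x ^ (j + 1) - x ^ j)]
            calc _ = D ^ 2 * (l * x ^ (j + 1) + x ^ j) ^ 2 := by ring
              _ ≤ D ^ 2 * (2 * ((l * x ^ (j + 1)) ^ 2 + (x ^ j) ^ 2)) :=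
                  mul_le_mul_of_nonneg_left h4 (sq_nonneg _)
              _ = _ := by ring
        _ = _ := by ring
    have h5 : ρ ^ (j + 2) ≤ (1 / (p : ℝ)) ^ (j + 2) := pow_le_pow_left₀ hρ0 hρ _
    have h6 : 0 ≤ 2 * D ^ 2 * (l ^ 2 * (x ^ 2) ^ (j + 1) + (x ^ 2) ^ j) := by positivity
    calc ρ ^ (j + 2) * e (j + 2) ^ 2 ≤
          (1 / (p : ℝ)) ^ (j + 2) * (2 * D ^ 2 * (l ^ 2 * (x ^ 2) ^ (j + 1) + (x ^ 2) ^ j)) :=
          mul_le_mul h5 h3 (sq_nonneg _) (by positivity)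
      _ = y ^ j * (2 * D ^ 2 * (l ^ 2 * (y / p) + 1 / (p : ℝ) ^ 2)) := by
          rw [hxy, mul_pow, mul_pow, div_pow, one_pow, pow_add (p : ℝ), pow_add (p : ℝ), pow_add y]
          field_simp
      _ ≤ y ^ j * (2 * D ^ 2 * (l ^ 2 * (y / p) + y / p)) := by gcongr
      _ = _ := by
          unfold er
          rw [hq]
          ring
  refine (sum_le_sum hterm).trans ?_
  rw [← sum_mul]
  have h7 := geo hy0.le hy1 X
  have h8 : 1 / (1 - y) ≤ kt th := by
    unfold kt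
    have := kt_aux h1
    apply one_div_le_one_div_of_le (by linarith) (by linarith)
  have h9 : 0 ≤ 2 * D ^ 2 * er th l p := mul_nonneg (by positivity) (er_nonneg _ _ _)
  calc _ ≤ kt th * (2 * D ^ 2 * er th l p) := mul_le_mul_of_nonneg_right (h7.trans h8) h9
    _ = _ := by ring


theorem RSb.all {b : ℕ → ℝ} {C : ℝ} (h : RSb b C) (hb : ∀ n, 0 ≤ b n) (hC : 0 ≤ C) {L : ℝ} (hL : 1 ≤ L) :
    ∃ K : ℝ, 0 ≤ K ∧ ∀ X : ℕ, ∑ p ∈ pr X, b p * (p : ℝ) ^ (-(1 + 1 / L)) ≤ K := by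
  obtain ⟨C2, hC2, h2⟩ := h.large hb hC
  refine ⟨4 * Real.log (L / (1 / 4)) + C2, ?_, fun X => ?_⟩
  · have : 0 ≤ Real.log (L / (1 / 4)) := Real.log_nonneg (by rw [one_le_div (by norm_num)]; linarith)
    positivity
  · have h3 := h2 L (1 / 4) X hL (by norm_num) (by linarith)
    rwa [filter_true_of_mem] at h3
    intro p hp
    rw [mem_pr] at hp
    have h4 : Real.log 2 ≤ Real.log p := Real.log_le_log (by norm_num) (by exact_mod_cast hp.2.two_le)
    have := Real.log_two_gt_d9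
    linarith

namespace Dat

variable {th C : ℝ}

theorem err (h : Dat ps lam th C) : ∃ K : ℝ, 0 ≤ K ∧ ∀ X : ℕ, ∑ p ∈ pr X, er th ‖lam p‖ p ≤ K := by
  have h0 := h.th0
  have h1 := h.th1
  have hC := h.C1
  have hL : 1 ≤ 1 / (1 - 2 * th) := by
    rw [one_le_div (by linarith)]
    linarith
  obtain ⟨K1, hK1, h2⟩ := h.rs.all (fun n => sq_nonneg _) (by linarith) hL
  have hs : Summable (fun n : ℕ => (n : ℝ) ^ (-(2 - 2 * th))) := by
    rw [Real.summable_nat_rpow]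
    linarith
  have hs0 : ∀ n : ℕ, 0 ≤ (n : ℝ) ^ (-(2 - 2 * th)) := fun n => Real.rpow_nonneg (Nat.cast_nonneg _) _
  refine ⟨K1 + ∑' n : ℕ, (n : ℝ) ^ (-(2 - 2 * th)), add_nonneg hK1 (tsum_nonneg hs0), fun X => ?_⟩
  have h3 := h2 X
  have h4 := hs.sum_le_tsum (pr X) (fun i _ => hs0 i)
  have e1 : ∑ p ∈ pr X, er th ‖lam p‖ p = ∑ p ∈ pr X, ‖lam p‖ ^ 2 * (p : ℝ) ^ (-(1 + 1 / (1 / (1 - 2 * th)))) +
      ∑ p ∈ pr X, (p : ℝ) ^ (-(2 - 2 * th)) := by
    rw [← sum_add_distrib]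
    refine sum_congr rfl fun p _ => ?_
    unfold er
    have : -(1 + 1 / (1 / (1 - 2 * th))) = -(2 - 2 * th) := by
      rw [one_div_one_div]
      ring
    rw [this]
    ring
  rw [e1]
  linarith

/-- squares of a multiplicative function with local bounds -/
theorem sqs (h : Dat ps lam th C) {g : ℕ → ℂ} (g1 : g 1 = 1)
    (gm : ∀ m n : ℕ, Nat.Coprime m n → g (m * n) = g m * g n)
    (gp : ∀ p : ℕ, p.Prime → ‖g p‖ ≤ ‖lam p‖) {D : ℝ}
    (gr : ∀ p r : ℕ, p.Prime → 2 ≤ r →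
      ‖g (p ^ r)‖ ≤ D * (‖lam p‖ * ((p : ℝ) ^ th) ^ (r - 1) + ((p : ℝ) ^ th) ^ (r - 2)))
    {σ : ℝ} (hσ : 1 < σ) : Summable (fun n : ℕ => ‖g n‖ ^ 2 * (n : ℝ) ^ (-σ)) := by
  have h0 := h.th0
  have h1 := h.th1
  have hC := h.C1
  obtain ⟨K1, hK1, h2⟩ := h.err
  obtain ⟨L, hLd⟩ : ∃ L : ℝ, L = max 1 (1 / (σ - 1)) := ⟨_, rfl⟩
  have hL : 1 ≤ L := by rw [hLd]; exact le_max_left _ _
  have hL2 : 1 + 1 / L ≤ σ := by
    have h3 : 1 / (σ - 1) ≤ L := by rw [hLd]; exact le_max_right _ _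
    have h4 : 1 / L ≤ σ - 1 := by
      rw [div_le_iff₀ (by linarith)]
      rw [div_le_iff₀ (by linarith)] at h3
      linarith
    linarith
  obtain ⟨K2, hK2, h3⟩ := h.rs.all (fun n => sq_nonneg _) (by linarith) hL
  have f0 : ∀ n : ℕ, 0 ≤ ‖g n‖ ^ 2 * (n : ℝ) ^ (-σ) := fun n =>
    mul_nonneg (sq_nonneg _) (Real.rpow_nonneg (Nat.cast_nonneg _) _)
  refine summable_of_sum_range_le (c := Real.exp (K2 + 2 * D ^ 2 * kt th * K1)) f0 fun X => ?_
  have h4 : ∑ n ∈ range X, ‖g n‖ ^ 2 * (n : ℝ) ^ (-σ) ≤ ∑ n ∈ Icc 1 X, ‖g n‖ ^ 2 * (n : ℝ) ^ (-σ) := by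
    have h5 : ∑ n ∈ range X, ‖g n‖ ^ 2 * (n : ℝ) ^ (-σ) ≤ ∑ n ∈ insert 0 (Icc 1 X), ‖g n‖ ^ 2 * (n : ℝ) ^ (-σ) := by
      refine sum_le_sum_of_subset_of_nonneg ?_ fun n _ _ => f0 n
      intro n hn
      rw [mem_range] at hn
      rw [mem_insert, mem_Icc]
      omega
    rw [sum_insert (by simp)] at h5
    have h6 : ‖g 0‖ ^ 2 * ((0 : ℕ) : ℝ) ^ (-σ) = 0 := by
      rw [Nat.cast_zero, Real.zero_rpow (by linarith), mul_zero]
    linarith
  refine h4.trans ((sum_le_exp (f := fun n : ℕ => ‖g n‖ ^ 2 * (n : ℝ) ^ (-σ)) f0 ?_ ?_ X).trans ?_)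
  · simp [g1]
  · intro m n hmn
    rw [gm m n hmn, norm_mul]
    push_cast
    rw [Real.mul_rpow (Nat.cast_nonneg _) (Nat.cast_nonneg _)]
    ring
  · apply Real.exp_le_exp.2
    rcases Nat.eq_zero_or_pos X with hX | hX
    · subst hX
      have := (kt_pos h1).le
      have h7 : pr 0 = ∅ := by
        ext p
        rw [mem_pr]
        simp only [notMem_empty, iff_false, not_and]
        intro h5 h6
        exact h6.ne_zero (by omega)
      rw [h7, sum_empty]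
      positivity
    have h5 : ∀ p ∈ pr X, ∑ r ∈ Icc 1 X, ‖g (p ^ r)‖ ^ 2 * ((p ^ r : ℕ) : ℝ) ^ (-σ) ≤
        ‖lam p‖ ^ 2 * (p : ℝ) ^ (-(1 + 1 / L)) + 2 * D ^ 2 * kt th * er th ‖lam p‖ p := by
      intro p hp
      rw [mem_pr] at hp
      have hp0 : (0 : ℝ) < p := by exact_mod_cast hp.2.pos
      have hp1 : (1 : ℝ) ≤ p := by exact_mod_cast hp.2.one_le
      have hpw : ∀ r : ℕ, ((p ^ r : ℕ) : ℝ) ^ (-σ) = ((p : ℝ) ^ (-σ)) ^ r := fun r => by
        push_cast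
        rw [← Real.rpow_natCast, ← Real.rpow_mul hp0.le, mul_comm, Real.rpow_mul hp0.le, Real.rpow_natCast]
      have h6 : Icc 1 X = insert 1 (Icc 2 X) := by
        ext r
        rw [mem_insert, mem_Icc, mem_Icc]
        omega
      rw [h6, sum_insert (by simp)]
      refine add_le_add ?_ ?_
      · rw [pow_one]
        have h7 : ‖g p‖ ^ 2 ≤ ‖lam p‖ ^ 2 := pow_le_pow_left₀ (norm_nonneg _) (gp p hp.2) 2
        have h8 : (p : ℝ) ^ (-σ) ≤ (p : ℝ) ^ (-(1 + 1 / L)) :=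
          Real.rpow_le_rpow_of_exponent_le hp1 (by linarith)
        exact mul_le_mul h7 h8 (Real.rpow_nonneg hp0.le _) (sq_nonneg _)
      · have h9 := tail (th := th) (D := D) (ρ := (p : ℝ) ^ (-σ)) (l := ‖lam p‖) hp.2.two_le h0 h1
          (Real.rpow_nonneg hp0.le _) (by
            rw [one_div, ← Real.rpow_neg_one]
            exact Real.rpow_le_rpow_of_exponent_le hp1 (by linarith)) (fun r => ‖g (p ^ r)‖)
          (fun r => norm_nonneg _) (fun r hr => gr p r hp.2 hr) X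
        refine le_trans (le_of_eq ?_) h9
        refine sum_congr rfl fun r _ => ?_
        rw [hpw r]
        ring
    refine (sum_le_sum h5).trans ?_
    rw [sum_add_distrib, ← mul_sum]
    have h8 := (kt_pos h1).le
    have h9 := mul_le_mul_of_nonneg_left (h2 X) (by positivity : 0 ≤ 2 * D ^ 2 * kt th)
    linarith [h3 X]

theorem lam_loc (h : Dat ps lam th C) {p r : ℕ} (hp : p.Prime) (hr : 2 ≤ r) :
    ‖lam (p ^ r)‖ ≤ C * (‖lam p‖ * ((p : ℝ) ^ th) ^ (r - 1) + ((p : ℝ) ^ th) ^ (r - 2)) := by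
  obtain ⟨j, rfl⟩ : ∃ j, r = j + 2 := ⟨r - 2, by omega⟩
  refine (h.rc hp j).trans ?_
  have h1 := h.bp hp (j + 1)
  have h2 := h.bp hp j
  have h3 := mul_le_mul_of_nonneg_left h1 (norm_nonneg (lam p))
  have e1 : j + 2 - 1 = j + 1 := rfl
  have e2 : j + 2 - 2 = j := rfl
  rw [e1, e2]
  linarith

theorem mf_loc (h : Dat ps lam th C) {p r : ℕ} (hp : p.Prime) (hr : 2 ≤ r) :
    ‖mf ps lam (p ^ r)‖ ≤ C * (‖lam p‖ * ((p : ℝ) ^ th) ^ (r - 1) + ((p : ℝ) ^ th) ^ (r - 2)) := by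
  have hC := h.C1
  rw [mf_prime_pow hp]
  unfold ml
  rw [if_neg (by omega), if_neg (by omega)]
  split_ifs with h2
  · subst h2
    have h3 := h.ps_le p
    have h4 : 0 ≤ ‖lam p‖ * ((p : ℝ) ^ th) ^ (2 - 1) := by positivity
    have e2 : ((p : ℝ) ^ th) ^ (2 - 2) = 1 := by norm_num
    rw [e2]
    nlinarith
  · rw [norm_zero]
    positivity

theorem sq_lam (h : Dat ps lam th C) {σ : ℝ} (hσ : 1 < σ) :
    Summable (fun n : ℕ => ‖lam n‖ ^ 2 * (n : ℝ) ^ (-σ)) :=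
  h.sqs h.hk.one h.hk.mul (fun _ _ => le_rfl) (fun _ _ hp hr => h.lam_loc hp hr) hσ

theorem sq_mf (h : Dat ps lam th C) {σ : ℝ} (hσ : 1 < σ) :
    Summable (fun n : ℕ => ‖mf ps lam n‖ ^ 2 * (n : ℝ) ^ (-σ)) :=
  h.sqs mf_one (fun m n hmn => mf_mul hmn) (fun p hp => by
    have := mf_prime_pow (ps := ps) (lam := lam) hp 1
    rw [pow_one] at this
    rw [this]
    unfold ml
    rw [if_neg (by omega), if_pos rfl, norm_neg]) (fun p r hp hr => h.mf_loc hp hr) hσ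

theorem of_sq {g : ℕ → ℂ} {σ : ℝ} (hσ : 1 < σ) (hs : Summable (fun n : ℕ => ‖g n‖ ^ 2 * (n : ℝ) ^ (-σ))) :
    Summable (fun n : ℕ => ‖g n‖ * (n : ℝ) ^ (-σ)) := by
  have h1 : Summable (fun n : ℕ => (n : ℝ) ^ (-σ)) := by
    rw [Real.summable_nat_rpow]
    linarith
  refine (h1.add hs).of_nonneg_of_le (fun n => mul_nonneg (norm_nonneg _) (Real.rpow_nonneg (Nat.cast_nonneg _) _))
    fun n => ?_
  have h2 : ‖g n‖ ≤ 1 + ‖g n‖ ^ 2 := by nlinarith [sq_nonneg (‖g n‖ - 1), norm_nonneg (g n)]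
  have h3 := mul_le_mul_of_nonneg_right h2 (Real.rpow_nonneg (Nat.cast_nonneg n) (-σ))
  linarith

/-- pointwise bound -/
theorem mf_bd (h : Dat ps lam th C) :
    ∃ th' C' : ℝ, 0 ≤ th' ∧ th' < 1 / 2 ∧ ∀ n : ℕ, 1 ≤ n → ‖mf ps lam n‖ ≤ C' * (n : ℝ) ^ th' := by
  have h0 := h.th0
  have h1 := h.th1
  have hC := h.C1
  obtain ⟨t, htd⟩ : ∃ t : ℝ, t = (th + 1 / 2) / 2 := ⟨_, rfl⟩
  have ht0 : 0 ≤ t := by rw [htd]; linarith
  have htt : 0 < t - th := by rw [htd]; linarith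
  obtain ⟨P, hP⟩ : ∃ P : ℕ, ∀ n : ℕ, P ≤ n → C ≤ (n : ℝ) ^ (t - th) := by
    have h2 : Filter.Tendsto (fun n : ℕ => (n : ℝ) ^ (t - th)) Filter.atTop Filter.atTop :=
      (tendsto_rpow_atTop htt).comp tendsto_natCast_atTop_atTop
    obtain ⟨P, hP⟩ := Filter.eventually_atTop.1 (h2.eventually_ge_atTop C)
    exact ⟨P, hP⟩
  refine ⟨t, C ^ P, ht0, by rw [htd]; linarith, fun n hn => ?_⟩
  have hn0 : n ≠ 0 := by omega
  have e1 : mf ps lam n = ∏ p ∈ n.primeFactors, mf ps lam (p ^ n.factorization p) :=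
    mult_prod mf_one (fun m n hmn => mf_mul hmn) hn0 (subset_refl _)
  have e2 : ((n : ℕ) : ℝ) ^ t = ∏ p ∈ n.primeFactors, ((p ^ n.factorization p : ℕ) : ℝ) ^ t :=
    mult_prod (f := fun n : ℕ => (n : ℝ) ^ t) (by simp) (fun m n _ => by
      push_cast
      rw [Real.mul_rpow (Nat.cast_nonneg _) (Nat.cast_nonneg _)]) hn0 (subset_refl _)
  have h3 : ∀ p ∈ n.primeFactors, ‖mf ps lam (p ^ n.factorization p)‖ ≤
      (if p < P then C else 1) * ((p ^ n.factorization p : ℕ) : ℝ) ^ t := by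
    intro p hp
    have hpp := Nat.prime_of_mem_primeFactors hp
    have hp1 : (1 : ℝ) ≤ p := by exact_mod_cast hpp.one_le
    have hp0 : (0 : ℝ) < p := by linarith
    have hv : n.factorization p ≠ 0 := by
      have := (hpp.dvd_iff_one_le_factorization hn0).1 (Nat.dvd_of_mem_primeFactors hp)
      omega
    have h4 : (1 : ℝ) ≤ ((p ^ n.factorization p : ℕ) : ℝ) ^ t :=
      Real.one_le_rpow (by exact_mod_cast Nat.one_le_pow _ _ hpp.pos) ht0
    have h5 : (1 : ℝ) ≤ if p < P then C else 1 := by split_ifs <;> linarith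
    rw [mf_prime_pow hpp]
    unfold ml
    rw [if_neg hv]
    split_ifs with h6 h7 h7 h8 h8
    · rw [h6, pow_one, norm_neg]
      refine (h.bp1 hpp).trans (mul_le_mul_of_nonneg_left ?_ (by linarith))
      exact Real.rpow_le_rpow_of_exponent_le hp1 (by linarith)
    · rw [h6, pow_one, norm_neg]
      refine (h.bp1 hpp).trans ?_
      have h9 := hP p (by omega)
      rw [one_mul]
      calc C * (p : ℝ) ^ th ≤ (p : ℝ) ^ (t - th) * (p : ℝ) ^ th :=
            mul_le_mul_of_nonneg_right h9 (Real.rpow_nonneg hp0.le _)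
        _ = (p : ℝ) ^ t := by
            rw [← Real.rpow_add hp0]
            congr 1
            ring
    · have := h.ps_le p
      nlinarith
    · have := h.ps_le p
      linarith
    · rw [norm_zero]; nlinarith
    · rw [norm_zero]; nlinarith
  rw [e1, norm_prod, e2]
  refine (prod_le_prod (fun p _ => norm_nonneg _) h3).trans ?_
  rw [prod_mul_distrib]
  refine mul_le_mul_of_nonneg_right ?_ (prod_nonneg fun p _ => Real.rpow_nonneg (Nat.cast_nonneg _) _)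
  rw [prod_ite, prod_const, prod_const_one, mul_one]
  refine pow_le_pow_right₀ hC ?_
  have h5 : (n.primeFactors.filter (fun p => p < P)) ⊆ range P := by
    intro p hp
    rw [mem_filter] at hp
    rw [mem_range]
    exact hp.2
  have := card_le_card h5
  rwa [card_range] at this

end Dat

/-- square summability -/
theorem sq {k N : ℕ} (h : Pool.Agent.Y671.GL.Frm k N ps lam) {σ : ℝ} (hσ : 1 < σ) :
    Summable (fun n : ℕ => ‖lam n‖ ^ 2 * (n : ℝ) ^ (-σ)) ∧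
      Summable (fun n : ℕ => ‖mf ps lam n‖ ^ 2 * (n : ℝ) ^ (-σ)) := by
  obtain ⟨th, C, hd⟩ := dat_of_frm h
  exact ⟨hd.sq_lam hσ, hd.sq_mf hσ⟩

theorem mf : Pool.Agent.Y671.GL.S_MF := by
  intro k N ps lam h
  obtain ⟨th, C, hd⟩ := dat_of_frm h
  exact ⟨fun m n hmn => mf_mul hmn, fun n hn => inverse (hk_of_frm h) n hn, hd.mf_bd,
    fun σ hσ => ⟨Dat.of_sq hσ (hd.sq_lam hσ), Dat.of_sq hσ (hd.sq_mf hσ)⟩⟩

end Pool.Agent.Y771.GL
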