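import Pool.Agent.Y771.GL.MF

set_option autoImplicit false

/-! # GD2, task EU1 -/

namespace Pool.Agent.Y771.GL

open Complex Finset
open scoped ComplexConjugate

variable {ps lam : ℕ → ℂ}

/-- the sum over primes with weights that are small up to `exp (L / (1 + |τ|))` -/
theorem RSb.main {b : ℕ → ℝ} {C : ℝ} (h : RSb b C) (hb : ∀ n, 0 ≤ b n) (hC : 0 ≤ C) :
    ∃ K : ℝ, 0 ≤ K ∧ ∀ (L τ : ℝ) (X : ℕ) (m : ℕ → ℝ), 1 ≤ L → (∀ p, m p ≤ 4) →
      (∀ p : ℕ, m p ≤ (Real.log p * (1 + |τ|) / L) ^ 2) →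
      ∑ p ∈ pr X, b p * (p : ℝ) ^ (-(1 + 1 / L)) * m p ≤ 16 * Real.log (1 + |τ|) + K := by
  obtain ⟨C2, hC2, h2⟩ := h.large hb hC
  have hl2 : 0 < Real.log 2 := Real.log_pos (by norm_num)
  refine ⟨4 + C / Real.log 2 + 4 * C2, by positivity, fun L τ X m hL hm1 hm2 => ?_⟩
  have hL0 : 0 < L := by linarith
  have hτ : 0 ≤ |τ| := abs_nonneg τ
  obtain ⟨Y, hYd⟩ : ∃ Y : ℝ, Y = L / (1 + |τ|) := ⟨_, rfl⟩
  have hY : 0 < Y := by rw [hYd]; positivity
  have hYL : Y ≤ L := by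
    rw [hYd, div_le_iff₀ (by positivity)]
    nlinarith
  have hLY : L / Y = 1 + |τ| := by
    rw [hYd]
    field_simp
  have e1 := sum_filter_add_sum_filter_not (pr X) (fun p : ℕ => Real.log p ≤ Y)
    (fun p : ℕ => b p * (p : ℝ) ^ (-(1 + 1 / L)) * m p)
  rw [← e1]
  have h3 := h.small hb hC X hY
  have h4 := h2 L Y X hL hY hYL
  rw [hLY] at h4
  have h5 : ∑ p ∈ (pr X).filter (fun p : ℕ => Real.log p ≤ Y), b p * (p : ℝ) ^ (-(1 + 1 / L)) * m p ≤
      4 + C / Real.log 2 := by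
    refine le_trans (sum_le_sum fun p hp => ?_) h3
    rw [mem_filter, mem_pr] at hp
    have hp1 : (1 : ℝ) ≤ p := by exact_mod_cast hp.1.2.one_le
    have hp0 : (0 : ℝ) < p := by linarith
    have h6 : (p : ℝ) ^ (-(1 + 1 / L)) ≤ 1 / p := by
      rw [show (1 : ℝ) / p = (p : ℝ) ^ (-1 : ℝ) by rw [Real.rpow_neg_one, one_div]]
      apply Real.rpow_le_rpow_of_exponent_le hp1
      have : 0 ≤ 1 / L := by positivity
      linarith
    have h7 : m p ≤ (Real.log p / Y) ^ 2 := by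
      refine (hm2 p).trans (le_of_eq ?_)
      rw [hYd]
      field_simp
    calc b p * (p : ℝ) ^ (-(1 + 1 / L)) * m p ≤ b p * (p : ℝ) ^ (-(1 + 1 / L)) * (Real.log p / Y) ^ 2 :=
          mul_le_mul_of_nonneg_left h7 (mul_nonneg (hb p) (Real.rpow_nonneg hp0.le _))
      _ ≤ b p * (1 / p) * (Real.log p / Y) ^ 2 := by
          apply mul_le_mul_of_nonneg_right _ (sq_nonneg _)
          exact mul_le_mul_of_nonneg_left h6 (hb p)
      _ = _ := by ring
  have h6 : ∑ p ∈ (pr X).filter (fun p : ℕ => ¬ Real.log p ≤ Y), b p * (p : ℝ) ^ (-(1 + 1 / L)) * m p ≤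
      4 * (4 * Real.log (1 + |τ|) + C2) := by
    refine le_trans ?_ (mul_le_mul_of_nonneg_left h4 (by norm_num))
    rw [mul_sum]
    have e2 : (pr X).filter (fun p : ℕ => ¬ Real.log p ≤ Y) = (pr X).filter (fun p : ℕ => Y < Real.log p) := by
      apply filter_congr
      intro p _
      exact not_le
    rw [e2]
    refine sum_le_sum fun p _ => ?_
    have h7 : 0 ≤ b p * (p : ℝ) ^ (-(1 + 1 / L)) := mul_nonneg (hb p) (Real.rpow_nonneg (Nat.cast_nonneg _) _)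
    have := mul_le_mul_of_nonneg_left (hm1 p) h7
    linarith
  linarith

theorem one_sub_exp {z : ℂ} (hz : 0 ≤ z.re) : ‖1 - cexp (-z)‖ ≤ ‖z‖ := by
  have h1 := Convex.norm_image_sub_le_of_norm_hasDerivWithin_le (𝕜 := ℂ) (f := fun z : ℂ => cexp (-z))
    (f' := fun z : ℂ => -cexp (-z)) (s := {z : ℂ | 0 ≤ z.re}) (C := 1) (x := z) (y := 0)
    (fun x _ => by
      have h2 : HasDerivAt (fun z : ℂ => cexp (-z)) (cexp (-x) * -1) x := (hasDerivAt_neg x).cexp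
      rw [mul_neg_one] at h2
      exact h2.hasDerivWithinAt)
    (fun x hx => by
      rw [norm_neg, Complex.norm_exp]
      apply Real.exp_le_one_iff.2
      rw [neg_re]
      have hx2 : 0 ≤ x.re := hx
      linarith)
    (convex_halfSpace_re_ge 0) hz (by simp)
  simpa using h1

/-- the values `p^(-w)` -/
theorem cpow_eq_exp {p : ℕ} (hp : p ≠ 0) (w : ℂ) : (p : ℂ) ^ (-w) = cexp (-(w * Real.log p)) := by
  rw [Complex.cpow_def_of_ne_zero (by exact_mod_cast hp), Complex.natCast_log]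
  congr 1
  ring

theorem norm_cpow_le_one {p : ℕ} (hp : p ≠ 0) {w : ℂ} (hw : 0 ≤ w.re) : ‖(p : ℂ) ^ (-w)‖ ≤ 1 := by
  rw [cpow_eq_exp hp, Complex.norm_exp]
  apply Real.exp_le_one_iff.2
  have h1 : 0 ≤ Real.log p := Real.log_natCast_nonneg p
  have h2 : (w * ((Real.log p : ℝ) : ℂ)).re = w.re * Real.log p := by rw [Complex.re_mul_ofReal]
  rw [neg_re, h2]
  have := mul_nonneg hw h1
  linarith

theorem cpow_pow {p : ℕ} (i : ℕ) (w : ℂ) : ((p ^ i : ℕ) : ℂ) ^ (-w) = ((p : ℂ) ^ (-w)) ^ i := by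
  rw [← Complex.cpow_nat_mul, Complex.natCast_cpow_natCast_mul]
  push_cast
  rfl

/-- the twisted convolution -/
noncomputable def cv (ps lam : ℕ → ℂ) (w : ℂ) (n : ℕ) : ℂ :=
  ∑ h ∈ n.divisors, Pool.Agent.Y671.GL.mf ps lam h * (h : ℂ) ^ (-w) * lam (n / h)

theorem cv_eq (ps lam : ℕ → ℂ) (w : ℂ) (n : ℕ) :
    cv ps lam w n = (af (fun h => Pool.Agent.Y671.GL.mf ps lam h * (h : ℂ) ^ (-w)) * af lam) n := by
  rw [ArithmeticFunction.mul_apply, Nat.sum_divisorsAntidiagonal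
    (fun a b => af (fun h => Pool.Agent.Y671.GL.mf ps lam h * (h : ℂ) ^ (-w)) a * af lam b)]
  unfold cv
  refine sum_congr rfl fun d hd => ?_
  have h3 := Nat.pos_of_mem_divisors hd
  have h4 : n / d ≠ 0 := by
    have := Nat.div_pos (Nat.divisor_le hd) h3
    omega
  rw [af_apply h3.ne', af_apply h4]

theorem cv_is (H : Hk ps lam) (w : ℂ) :
    (af (fun h => Pool.Agent.Y671.GL.mf ps lam h * (h : ℂ) ^ (-w)) * af lam).IsMultiplicative := by
  refine ArithmeticFunction.IsMultiplicative.mul (af_mult ?_ ?_) (af_mult H.one H.mul)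
  · simp [mf_one]
  · intro m n hmn
    rw [mf_mul hmn, Nat.cast_mul, Complex.natCast_mul_natCast_cpow]
    ring

theorem cv_one (H : Hk ps lam) (w : ℂ) : cv ps lam w 1 = 1 := by
  simp [cv, mf_one, H.one]

theorem cv_mul (H : Hk ps lam) (w : ℂ) {m n : ℕ} (h : Nat.Coprime m n) :
    cv ps lam w (m * n) = cv ps lam w m * cv ps lam w n := by
  rw [cv_eq, cv_eq, cv_eq, (cv_is H w).map_mul_of_coprime h]

theorem cv_pp {p : ℕ} (hp : p.Prime) (w : ℂ) (r : ℕ) : cv ps lam w (p ^ r) =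
    ∑ i ∈ range (r + 1), ml ps lam p i * ((p : ℂ) ^ (-w)) ^ i * lam (p ^ (r - i)) := by
  unfold cv
  rw [Nat.divisors_prime_pow hp, sum_map]
  refine sum_congr rfl fun i hi => ?_
  rw [mem_range] at hi
  have h2 : p ^ r / p ^ i = p ^ (r - i) := Nat.pow_div (by omega) hp.pos
  simp only [Function.Embedding.coeFn_mk]
  rw [h2, mf_prime_pow hp, cpow_pow]

theorem cv_p (H : Hk ps lam) {p : ℕ} (hp : p.Prime) (w : ℂ) :
    cv ps lam w p = (1 - (p : ℂ) ^ (-w)) * lam p := by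
  have h1 := cv_pp (ps := ps) (lam := lam) hp w 1
  rw [pow_one] at h1
  rw [h1, sum_range_succ, sum_range_one]
  simp [ml, H.one]
  ring

theorem cv_pr (H : Hk ps lam) {p : ℕ} (hp : p.Prime) (w : ℂ) (j : ℕ) :
    cv ps lam w (p ^ (j + 2)) = (1 - (p : ℂ) ^ (-w)) * (lam p * lam (p ^ (j + 1))) -
      (1 - ((p : ℂ) ^ (-w)) ^ 2) * (ps p * lam (p ^ j)) := by
  rw [cv_pp hp, ← Finset.sum_subset (s₁ := range 3)]
  · rw [sum_range_succ, sum_range_succ, sum_range_one]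
    have e1 : j + 2 - 0 = j + 2 := rfl
    have e2 : j + 2 - 1 = j + 1 := rfl
    have e3 : j + 2 - 2 = j := rfl
    rw [e1, e2, e3, H.pow p j hp]
    simp only [ml]
    norm_num
    ring
  · intro x hx
    simp only [mem_range] at hx ⊢
    omega
  · intro x hx hx2
    simp only [mem_range] at hx hx2
    unfold ml
    rw [if_neg (by omega), if_neg (by omega), if_neg (by omega), zero_mul, zero_mul]

namespace Dat

variable {th C : ℝ}

theorem cv_loc (h : Dat ps lam th C) {w : ℂ} (hw : 0 ≤ w.re) {p r : ℕ} (hp : p.Prime) (hr : 2 ≤ r) :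
    ‖cv ps lam w (p ^ r)‖ ≤ (2 * C) * (‖lam p‖ * ((p : ℝ) ^ th) ^ (r - 1) + ((p : ℝ) ^ th) ^ (r - 2)) := by
  obtain ⟨j, rfl⟩ : ∃ j, r = j + 2 := ⟨r - 2, by omega⟩
  rw [cv_pr h.hk hp]
  have h1 := h.bp hp (j + 1)
  have h2 := h.bp hp j
  have h3 := norm_cpow_le_one hp.ne_zero hw
  have e1 : j + 2 - 1 = j + 1 := rfl
  have e2 : j + 2 - 2 = j := rfl
  rw [e1, e2]
  have h4 : ‖1 - (p : ℂ) ^ (-w)‖ ≤ 2 := (norm_sub_le _ _).trans (by rw [norm_one]; linarith)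
  have h5 : ‖1 - ((p : ℂ) ^ (-w)) ^ 2‖ ≤ 2 := (norm_sub_le _ _).trans (by
    rw [norm_one, norm_pow]
    have := pow_le_one₀ (norm_nonneg _) h3 (n := 2)
    linarith)
  refine (norm_sub_le _ _).trans ?_
  rw [norm_mul, norm_mul, norm_mul, norm_mul]
  have h6 : ‖1 - (p : ℂ) ^ (-w)‖ * (‖lam p‖ * ‖lam (p ^ (j + 1))‖) ≤ 2 * (‖lam p‖ * (C * ((p : ℝ) ^ th) ^ (j + 1))) :=
    mul_le_mul h4 (mul_le_mul_of_nonneg_left h1 (norm_nonneg _)) (by positivity) (by norm_num)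
  have h7 : ‖1 - ((p : ℂ) ^ (-w)) ^ 2‖ * (‖ps p‖ * ‖lam (p ^ j)‖) ≤ 2 * (1 * (C * ((p : ℝ) ^ th) ^ j)) :=
    mul_le_mul h5 (mul_le_mul (h.ps_le p) h2 (norm_nonneg _) (by norm_num)) (by positivity) (by norm_num)
  calc _ ≤ 2 * (‖lam p‖ * (C * ((p : ℝ) ^ th) ^ (j + 1))) + 2 * (1 * (C * ((p : ℝ) ^ th) ^ j)) := add_le_add h6 h7
    _ = _ := by ring

theorem eu1 (h : Dat ps lam th C) : ∃ K : ℝ, 0 < K ∧ ∀ (L τ : ℝ) (X : ℕ), 1 ≤ L →
    ∑ n ∈ Icc 1 X, (n : ℝ) ^ (-(1 + 1 / L)) * ‖cv ps lam ((1 + I * τ) / L) n‖ ^ 2 ≤ K * (1 + |τ|) ^ 16 := by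
  have h0 := h.th0
  have h1 := h.th1
  have hC := h.C1
  obtain ⟨K1, hK1, h2⟩ := h.err
  obtain ⟨K2, hK2, h3⟩ := h.rs.main (fun n => sq_nonneg _) (by linarith)
  refine ⟨Real.exp (K2 + 2 * (2 * C) ^ 2 * kt th * K1), Real.exp_pos _, fun L τ X hL => ?_⟩
  have hL0 : 0 < L := by linarith
  have hτ : 0 ≤ |τ| := abs_nonneg τ
  obtain ⟨w, hwd⟩ : ∃ w : ℂ, w = (1 + I * τ) / L := ⟨_, rfl⟩
  rw [← hwd]
  have hwre : w.re = 1 / L := by
    rw [hwd, Complex.div_ofReal_re]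
    simp
  have hw0 : 0 ≤ w.re := by rw [hwre]; positivity
  have hwn : ‖w‖ ≤ (1 + |τ|) / L := by
    rw [hwd, norm_div, Complex.norm_real, Real.norm_of_nonneg hL0.le]
    apply div_le_div_of_nonneg_right _ hL0.le
    refine (norm_add_le _ _).trans ?_
    rw [norm_one, norm_mul, norm_I, one_mul, Complex.norm_real, Real.norm_eq_abs]
  have f0 : ∀ n : ℕ, 0 ≤ (n : ℝ) ^ (-(1 + 1 / L)) * ‖cv ps lam w n‖ ^ 2 := fun n =>
    mul_nonneg (Real.rpow_nonneg (Nat.cast_nonneg _) _) (sq_nonneg _)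
  refine (sum_le_exp (f := fun n : ℕ => (n : ℝ) ^ (-(1 + 1 / L)) * ‖cv ps lam w n‖ ^ 2) f0 ?_ ?_ X).trans ?_
  · simp [cv_one h.hk]
  · intro m n hmn
    rw [cv_mul h.hk w hmn, norm_mul]
    push_cast
    rw [Real.mul_rpow (Nat.cast_nonneg _) (Nat.cast_nonneg _)]
    ring
  · have h4 : (1 + |τ|) ^ 16 = Real.exp (16 * Real.log (1 + |τ|)) := by
      rw [mul_comm, Real.exp_mul, Real.exp_log (by positivity)]
      norm_cast
    rw [h4, ← Real.exp_add]
    apply Real.exp_le_exp.2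
    rcases Nat.eq_zero_or_pos X with hX | hX
    · subst hX
      have := (kt_pos h1).le
      have h7 : pr 0 = ∅ := by
        ext p
        rw [mem_pr]
        simp only [notMem_empty, iff_false, not_and]
        intro h5 h6
        exact h6.ne_zero (by omega)
      rw [h7, sum_empty]
      have : 0 ≤ Real.log (1 + |τ|) := Real.log_nonneg (by linarith)
      positivity
    have h5 : ∀ p ∈ pr X, ∑ r ∈ Icc 1 X, ((p ^ r : ℕ) : ℝ) ^ (-(1 + 1 / L)) * ‖cv ps lam w (p ^ r)‖ ^ 2 ≤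
        ‖lam p‖ ^ 2 * (p : ℝ) ^ (-(1 + 1 / L)) * ‖1 - (p : ℂ) ^ (-w)‖ ^ 2 +
          2 * (2 * C) ^ 2 * kt th * er th ‖lam p‖ p := by
      intro p hp
      rw [mem_pr] at hp
      have hp0 : (0 : ℝ) < p := by exact_mod_cast hp.2.pos
      have hp1 : (1 : ℝ) ≤ p := by exact_mod_cast hp.2.one_le
      have hpw : ∀ r : ℕ, ((p ^ r : ℕ) : ℝ) ^ (-(1 + 1 / L)) = ((p : ℝ) ^ (-(1 + 1 / L))) ^ r := fun r => by
        push_cast
        rw [← Real.rpow_natCast, ← Real.rpow_mul hp0.le, mul_comm, Real.rpow_mul hp0.le, Real.rpow_natCast]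
      have h6 : Icc 1 X = insert 1 (Icc 2 X) := by
        ext r
        rw [mem_insert, mem_Icc, mem_Icc]
        omega
      rw [h6, sum_insert (by simp)]
      refine add_le_add (le_of_eq ?_) ?_
      · rw [pow_one, cv_p h.hk hp.2, norm_mul]
        ring
      · have h9 := tail (th := th) (D := 2 * C) (ρ := (p : ℝ) ^ (-(1 + 1 / L))) (l := ‖lam p‖) hp.2.two_le h0 h1
          (Real.rpow_nonneg hp0.le _) (by
            rw [show (1 : ℝ) / p = (p : ℝ) ^ (-1 : ℝ) by rw [Real.rpow_neg_one, one_div]]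
            apply Real.rpow_le_rpow_of_exponent_le hp1
            have : 0 ≤ 1 / L := by positivity
            linarith) (fun r => ‖cv ps lam w (p ^ r)‖)
          (fun r => norm_nonneg _) (fun r hr => h.cv_loc hw0 hp.2 hr) X
        refine le_trans (le_of_eq ?_) h9
        refine sum_congr rfl fun r _ => ?_
        rw [hpw r]
    refine (sum_le_sum h5).trans ?_
    rw [sum_add_distrib, ← mul_sum]
    have h8 := (kt_pos h1).le
    have h9 := mul_le_mul_of_nonneg_left (h2 X) (by positivity : 0 ≤ 2 * (2 * C) ^ 2 * kt th)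
    have h10 := h3 L τ X (fun p => if p = 0 then 0 else ‖1 - (p : ℂ) ^ (-w)‖ ^ 2) hL (fun p => by
      split_ifs with hp
      · norm_num
      · have h11 := norm_cpow_le_one hp hw0
        have h12 : ‖1 - (p : ℂ) ^ (-w)‖ ≤ 2 := (norm_sub_le _ _).trans (by rw [norm_one]; linarith)
        nlinarith [norm_nonneg (1 - (p : ℂ) ^ (-w))]) (fun p => by
      split_ifs with hp
      · positivity
      · apply pow_le_pow_left₀ (norm_nonneg _)
        have hl : 0 ≤ Real.log p := Real.log_natCast_nonneg p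
        rw [cpow_eq_exp hp]
        refine (one_sub_exp ?_).trans ?_
        · have : (w * ((Real.log p : ℝ) : ℂ)).re = w.re * Real.log p := by rw [Complex.re_mul_ofReal]
          rw [this]
          positivity
        · rw [norm_mul, Complex.norm_real, Real.norm_of_nonneg hl]
          calc ‖w‖ * Real.log p ≤ (1 + |τ|) / L * Real.log p := mul_le_mul_of_nonneg_right hwn hl
            _ = _ := by ring)
    have h11 : ∑ p ∈ pr X, ‖lam p‖ ^ 2 * (p : ℝ) ^ (-(1 + 1 / L)) * ‖1 - (p : ℂ) ^ (-w)‖ ^ 2 =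
        ∑ p ∈ pr X, ‖lam p‖ ^ 2 * (p : ℝ) ^ (-(1 + 1 / L)) * (if p = 0 then 0 else ‖1 - (p : ℂ) ^ (-w)‖ ^ 2) := by
      refine sum_congr rfl fun p hp => ?_
      rw [mem_pr] at hp
      rw [if_neg hp.2.ne_zero]
    rw [h11]
    linarith

end Dat

theorem eu1 : Pool.Agent.Y671.GL.S_EU1 := by
  intro k N ps lam h
  obtain ⟨th, C, hd⟩ := dat_of_frm h
  exact hd.eu1

end Pool.Agent.Y771.GL
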