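import Pool.Agent.Y771.GL.EU1

set_option autoImplicit false

/-! # GD2, task EU2 -/

namespace Pool.Agent.Y771.GL

open Complex Finset Filter Topology
open scoped ComplexConjugate

variable {ps lam : ℕ → ℂ}

/-! ## The local factors -/

theorem loc_E00 {A A2 ψ v : ℂ} {C y q ρ : ℝ} (hψ : ‖ψ‖ ≤ 1) (hv : ‖v‖ = ρ) (hρ0 : 0 ≤ ρ) (hρ : ρ ≤ q) (hqy : q ≤ y)
    (hy : y ≤ 1) (hC : 1 ≤ C) (hb : ‖A‖ ^ 2 * q ≤ C ^ 2 * y) (hA2 : ‖A2‖ ≤ ‖A‖ ^ 2 + 1) (hA2' : ‖A2‖ * q ≤ C * y) :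
    ‖1 - A * conj A * v + ψ * conj A2 * v ^ 2‖ ^ 2 ≤
      1 - 2 * ‖A‖ ^ 2 * v.re + (C ^ 2 + 2 * (1 + C ^ 2) + C) * ((‖A‖ ^ 2 + 1) * (q * y)) := by
  have hq0 : 0 ≤ q := hρ0.trans hρ
  have hy0 : 0 ≤ y := hq0.trans hqy
  have hb0 : 0 ≤ ‖A‖ ^ 2 := sq_nonneg _
  obtain ⟨s, hs⟩ : ∃ s : ℂ, s = ψ * conj A2 * v ^ 2 := ⟨_, rfl⟩
  rw [← hs]
  have hsn : ‖s‖ ≤ ‖A2‖ * ρ ^ 2 := by
    rw [hs, norm_mul, norm_mul, norm_pow, hv, RCLike.norm_conj]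
    have := mul_le_mul_of_nonneg_right hψ (norm_nonneg A2)
    rw [one_mul] at this
    exact mul_le_mul_of_nonneg_right this (by positivity)
  have hρ2 : ρ ^ 2 ≤ q * y := by
    calc ρ ^ 2 = ρ * ρ := pow_two ρ
      _ ≤ q * y := mul_le_mul hρ (hρ.trans hqy) hρ0 hq0
  have hs1 : ‖s‖ ≤ (‖A‖ ^ 2 + 1) * (q * y) :=
    hsn.trans (mul_le_mul hA2 hρ2 (by positivity) (by positivity))
  have hs2 : ‖s‖ ≤ C := by
    refine hsn.trans ?_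
    calc ‖A2‖ * ρ ^ 2 ≤ ‖A2‖ * (q * 1) := by
          apply mul_le_mul_of_nonneg_left _ (norm_nonneg _)
          calc ρ ^ 2 = ρ * ρ := pow_two ρ
            _ ≤ q * 1 := mul_le_mul hρ (by linarith) hρ0 hq0
      _ = ‖A2‖ * q := by ring
      _ ≤ C * y := hA2'
      _ ≤ C * 1 := by gcongr
      _ = C := mul_one C
  have e1 : A * conj A = ((‖A‖ ^ 2 : ℝ) : ℂ) := by
    rw [Complex.mul_conj, Complex.normSq_eq_norm_sq]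
  rw [e1]
  obtain ⟨g, hg⟩ : ∃ g : ℂ, g = 1 - ((‖A‖ ^ 2 : ℝ) : ℂ) * v := ⟨_, rfl⟩
  rw [← hg]
  have hg1 : ‖g‖ ^ 2 = 1 - 2 * ‖A‖ ^ 2 * v.re + (‖A‖ ^ 2) ^ 2 * ρ ^ 2 := by
    have e2 : ρ ^ 2 = v.re ^ 2 + v.im ^ 2 := by
      rw [← hv, ← Complex.normSq_eq_norm_sq, Complex.normSq_apply]
      ring
    rw [e2, hg, ← Complex.normSq_eq_norm_sq, Complex.normSq_apply]
    simp only [sub_re, one_re, sub_im, one_im, Complex.re_ofReal_mul, Complex.im_ofReal_mul]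
    ring
  have hg2 : ‖g‖ ≤ 1 + C ^ 2 := by
    rw [hg]
    refine (norm_sub_le _ _).trans ?_
    rw [norm_one, norm_mul, hv, Complex.norm_real, Real.norm_of_nonneg hb0]
    have h1 : ‖A‖ ^ 2 * ρ ≤ ‖A‖ ^ 2 * q := mul_le_mul_of_nonneg_left hρ hb0
    have h2 : C ^ 2 * y ≤ C ^ 2 * 1 := mul_le_mul_of_nonneg_left hy (sq_nonneg _)
    linarith
  have h3 : (‖A‖ ^ 2) ^ 2 * ρ ^ 2 ≤ C ^ 2 * ((‖A‖ ^ 2 + 1) * (q * y)) := by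
    calc (‖A‖ ^ 2) ^ 2 * ρ ^ 2 ≤ (‖A‖ ^ 2) ^ 2 * (q ^ 2) := by gcongr
      _ = (‖A‖ ^ 2 * q) * (‖A‖ ^ 2 * q) := by ring
      _ ≤ (C ^ 2 * y) * (‖A‖ ^ 2 * q) := mul_le_mul_of_nonneg_right hb (by positivity)
      _ = C ^ 2 * (‖A‖ ^ 2 * (q * y)) := by ring
      _ ≤ C ^ 2 * ((‖A‖ ^ 2 + 1) * (q * y)) := by gcongr; linarith
  have h4 : ‖g + s‖ ^ 2 ≤ ‖g‖ ^ 2 + 2 * (‖g‖ * ‖s‖) + ‖s‖ * ‖s‖ := by
    have h5 := norm_add_le g s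
    calc ‖g + s‖ ^ 2 ≤ (‖g‖ + ‖s‖) ^ 2 := pow_le_pow_left₀ (norm_nonneg _) h5 2
      _ = _ := by ring
  have h5 : ‖g‖ * ‖s‖ ≤ (1 + C ^ 2) * ((‖A‖ ^ 2 + 1) * (q * y)) :=
    mul_le_mul hg2 hs1 (norm_nonneg _) (by positivity)
  have h6 : ‖s‖ * ‖s‖ ≤ C * ((‖A‖ ^ 2 + 1) * (q * y)) :=
    mul_le_mul hs2 hs1 (norm_nonneg _) (by positivity)
  calc _ ≤ ‖g‖ ^ 2 + 2 * (‖g‖ * ‖s‖) + ‖s‖ * ‖s‖ := h4
    _ ≤ _ := by rw [hg1]; linarith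

theorem loc_E10 {A A2 A3 ψ v : ℂ} {C y q ρ : ℝ} (hψ : ‖ψ‖ ≤ 1) (hv : ‖v‖ = ρ) (hρ0 : 0 ≤ ρ) (hρ : ρ ≤ q)
    (hqy : q ≤ y) (hy : y ≤ 1) (hC : 1 ≤ C) (hA2' : ‖A2‖ * q ≤ C * y) (hA3 : ‖A3‖ ≤ ‖A‖ * (1 + ‖A2‖)) :
    ρ * ‖conj A - A * conj A2 * v + ψ * conj A3 * v ^ 2‖ ^ 2 ≤
      ρ * ‖A‖ ^ 2 + (2 * (2 * C + 1) + (2 * C + 1) ^ 2) * ((‖A‖ ^ 2 + 1) * (q * y)) := by
  have hq0 : 0 ≤ q := hρ0.trans hρ
  have hy0 : 0 ≤ y := hq0.trans hqy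
  have hρ1 : ρ ≤ 1 := hρ.trans (hqy.trans hy)
  have hA20 := norm_nonneg A2
  obtain ⟨δ, hδ⟩ : ∃ δ : ℝ, δ = ‖A2‖ * ρ + (1 + ‖A2‖) * ρ ^ 2 := ⟨_, rfl⟩
  have hδ0 : 0 ≤ δ := by rw [hδ]; positivity
  have h1 : ‖A2‖ * ρ ≤ C * y := (mul_le_mul_of_nonneg_left hρ hA20).trans hA2'
  have h2 : ρ ^ 2 ≤ y := by nlinarith
  have h3 : ‖A2‖ * ρ ^ 2 ≤ C * y := by
    calc ‖A2‖ * ρ ^ 2 = ‖A2‖ * ρ * ρ := by ring
      _ ≤ ‖A2‖ * ρ * 1 := mul_le_mul_of_nonneg_left hρ1 (by positivity)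
      _ = ‖A2‖ * ρ := mul_one _
      _ ≤ C * y := h1
  have hδ1 : δ ≤ (2 * C + 1) * y := by rw [hδ]; linarith
  have h4 : ‖conj A - A * conj A2 * v + ψ * conj A3 * v ^ 2‖ ≤ ‖A‖ * (1 + δ) := by
    refine (norm_add_le _ _).trans ?_
    have h5 := norm_sub_le (conj A) (A * conj A2 * v)
    rw [norm_mul, norm_mul, RCLike.norm_conj, RCLike.norm_conj, hv] at h5
    rw [norm_mul (ψ * conj A3), norm_mul ψ, norm_pow, hv, RCLike.norm_conj]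
    have h6 : ‖ψ‖ * ‖A3‖ * ρ ^ 2 ≤ ‖A‖ * (1 + ‖A2‖) * ρ ^ 2 := by
      apply mul_le_mul_of_nonneg_right _ (by positivity)
      calc ‖ψ‖ * ‖A3‖ ≤ 1 * ‖A3‖ := mul_le_mul_of_nonneg_right hψ (norm_nonneg _)
        _ = ‖A3‖ := one_mul _
        _ ≤ _ := hA3
    rw [hδ]
    nlinarith
  have h5 : (1 + δ) ^ 2 ≤ 1 + (2 * (2 * C + 1) + (2 * C + 1) ^ 2) * y := by
    have h6 : δ ^ 2 ≤ (2 * C + 1) ^ 2 * y := by
      calc δ ^ 2 ≤ ((2 * C + 1) * y) ^ 2 := pow_le_pow_left₀ hδ0 hδ1 2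
        _ = (2 * C + 1) ^ 2 * (y * y) := by ring
        _ ≤ (2 * C + 1) ^ 2 * (y * 1) := by gcongr
        _ = _ := by ring
    nlinarith
  calc ρ * ‖conj A - A * conj A2 * v + ψ * conj A3 * v ^ 2‖ ^ 2 ≤ ρ * (‖A‖ * (1 + δ)) ^ 2 := by gcongr
    _ = ρ * ‖A‖ ^ 2 * (1 + δ) ^ 2 := by ring
    _ ≤ ρ * ‖A‖ ^ 2 * (1 + (2 * (2 * C + 1) + (2 * C + 1) ^ 2) * y) := by gcongr
    _ = ρ * ‖A‖ ^ 2 + (2 * (2 * C + 1) + (2 * C + 1) ^ 2) * (‖A‖ ^ 2 * (ρ * y)) := by ring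
    _ ≤ _ := by
        gcongr
        linarith

theorem loc_E01 {A ψ v : ℂ} {y q ρ : ℝ} (hψ : ‖ψ‖ ≤ 1) (hv : ‖v‖ = ρ) (hρ0 : 0 ≤ ρ) (hρ : ρ ≤ q)
    (hqy : q ≤ y) (hy : y ≤ 1) :
    ρ * ‖-A + ψ * conj A * v‖ ^ 2 ≤ ρ * ‖A‖ ^ 2 + 3 * ((‖A‖ ^ 2 + 1) * (q * y)) := by
  have hq0 : 0 ≤ q := hρ0.trans hρ
  have hy0 : 0 ≤ y := hq0.trans hqy
  have hρ1 : ρ ≤ 1 := hρ.trans (hqy.trans hy)
  have h1 : ‖-A + ψ * conj A * v‖ ≤ ‖A‖ * (1 + ρ) := by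
    refine (norm_add_le _ _).trans ?_
    rw [norm_neg, norm_mul, norm_mul, hv, RCLike.norm_conj]
    have h2 : ‖ψ‖ * ‖A‖ * ρ ≤ 1 * ‖A‖ * ρ := by gcongr
    linarith
  have h2 : (1 + ρ) ^ 2 ≤ 1 + 3 * ρ := by nlinarith
  calc ρ * ‖-A + ψ * conj A * v‖ ^ 2 ≤ ρ * (‖A‖ * (1 + ρ)) ^ 2 := by gcongr
    _ = ρ * ‖A‖ ^ 2 * (1 + ρ) ^ 2 := by ring
    _ ≤ ρ * ‖A‖ ^ 2 * (1 + 3 * ρ) := by gcongr
    _ = ρ * ‖A‖ ^ 2 + 3 * (‖A‖ ^ 2 * (ρ * ρ)) := by ring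
    _ ≤ _ := by
        gcongr
        · linarith
        · linarith

theorem loc_E02 {A ψ : ℂ} {y q ρ : ℝ} (hψ : ‖ψ‖ ≤ 1) (hρ0 : 0 ≤ ρ) (hρ : ρ ≤ q) (hqy : q ≤ y) :
    ρ ^ 2 * ‖ψ‖ ^ 2 ≤ (‖A‖ ^ 2 + 1) * (q * y) := by
  have hq0 : 0 ≤ q := hρ0.trans hρ
  have hy0 : 0 ≤ y := hq0.trans hqy
  have h1 : ‖ψ‖ ^ 2 ≤ 1 := pow_le_one₀ (norm_nonneg _) hψ
  calc ρ ^ 2 * ‖ψ‖ ^ 2 ≤ ρ ^ 2 * 1 := by gcongr
    _ = ρ * ρ := by ring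
    _ ≤ q * y := mul_le_mul hρ (hρ.trans hqy) hρ0 hq0
    _ ≤ (‖A‖ ^ 2 + 1) * (q * y) := by
        have : 0 ≤ ‖A‖ ^ 2 * (q * y) := by positivity
        linarith

/-- the local factor -/
noncomputable def EE (ps lam : ℕ → ℂ) (v : ℂ) (p α β : ℕ) : ℂ :=
  ∑ j ∈ range 3, ml ps lam p (β + j) * conj (lam (p ^ (α + j))) * v ^ j

theorem EE_zero (H : Hk ps lam) (v : ℂ) (p : ℕ) :
    EE ps lam v p 0 0 = 1 - lam p * conj (lam p) * v + ps p * conj (lam (p ^ 2)) * v ^ 2 := by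
  unfold EE
  rw [sum_range_succ, sum_range_succ, sum_range_one]
  simp [ml, H.one]
  ring

theorem EE_a (v : ℂ) (p α : ℕ) : EE ps lam v p α 0 =
    conj (lam (p ^ α)) - lam p * conj (lam (p ^ (α + 1))) * v + ps p * conj (lam (p ^ (α + 2))) * v ^ 2 := by
  unfold EE
  rw [sum_range_succ, sum_range_succ, sum_range_one]
  simp [ml]
  ring

theorem EE_01 (H : Hk ps lam) (v : ℂ) (p : ℕ) :
    EE ps lam v p 0 1 = -lam p + ps p * conj (lam p) * v := by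
  unfold EE
  rw [sum_range_succ, sum_range_succ, sum_range_one]
  simp [ml, H.one]

theorem EE_02 (H : Hk ps lam) (v : ℂ) (p : ℕ) : EE ps lam v p 0 2 = ps p := by
  unfold EE
  rw [sum_range_succ, sum_range_succ, sum_range_one]
  simp [ml, H.one]

theorem EE_03 (v : ℂ) (p β : ℕ) (hβ : 3 ≤ β) : EE ps lam v p 0 β = 0 := by
  unfold EE
  refine sum_eq_zero fun j _ => ?_
  unfold ml
  rw [if_neg (by omega), if_neg (by omega), if_neg (by omega), zero_mul, zero_mul]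

/-- the exponent pairs -/
def RR (Z : ℕ) : Finset (ℕ × ℕ) :=
  (range (Z + 1)).image (fun α => (α, 0)) ∪ (Icc 1 Z).image (fun β => (0, β))

theorem sum_RR {h : ℕ × ℕ → ℝ} (Z : ℕ) :
    ∑ k ∈ RR Z, h k = ∑ α ∈ range (Z + 1), h (α, 0) + ∑ β ∈ Icc 1 Z, h (0, β) := by
  unfold RR
  rw [sum_union, sum_image, sum_image]
  · intro a _ b _ hab
    exact (Prod.mk.inj hab).2
  · intro a _ b _ hab
    exact (Prod.mk.inj hab).1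
  · rw [disjoint_left]
    intro k h1 h2
    rw [mem_image] at h1 h2
    obtain ⟨a, _, rfl⟩ := h1
    obtain ⟨b, hb, hab⟩ := h2
    rw [mem_Icc] at hb
    have := (Prod.mk.inj hab).2
    omega

/-- the total constant -/
noncomputable def KC (th C : ℝ) : ℝ :=
  (C ^ 2 + 2 * (1 + C ^ 2) + C) + (2 * (2 * C + 1) + (2 * C + 1) ^ 2) + 3 + 1 + 2 * (3 * C) ^ 2 * kt th

namespace Dat

variable {th C : ℝ}

theorem ee_loc (h : Dat ps lam th C) {v : ℂ} {p α : ℕ} (hp : p.Prime) (hv : ‖v‖ ≤ 1 / p) (hα : 2 ≤ α) :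
    ‖EE ps lam v p α 0‖ ≤ (3 * C) * (‖lam p‖ * ((p : ℝ) ^ th) ^ (α - 1) + ((p : ℝ) ^ th) ^ (α - 2)) := by
  have h0 := h.th0
  have h1 := h.th1
  have hC := h.C1
  have hp1 : (1 : ℝ) ≤ p := by exact_mod_cast hp.one_le
  have hp0 : (0 : ℝ) < p := by linarith
  obtain ⟨x, hx⟩ : ∃ x : ℝ, x = (p : ℝ) ^ th := ⟨_, rfl⟩
  have hx1 : 1 ≤ x := by rw [hx]; exact Real.one_le_rpow hp1 h0
  have hx2 : x ^ 2 ≤ p := by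
    rw [hx, ← Real.rpow_natCast, ← Real.rpow_mul hp0.le]
    nth_rewrite 2 [← Real.rpow_one (p : ℝ)]
    apply Real.rpow_le_rpow_of_exponent_le hp1
    push_cast
    linarith
  have hv0 := norm_nonneg v
  have e1 := h.lam_loc hp hα
  have e2 := h.bp hp (α + 1)
  have e3 := h.lam_loc hp (r := α + 2) (by omega)
  rw [← hx] at e1 e2 e3 ⊢
  obtain ⟨j, rfl⟩ : ∃ j, α = j + 2 := ⟨α - 2, by omega⟩
  have s1 : j + 2 - 1 = j + 1 := rfl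
  have s2 : j + 2 - 2 = j := rfl
  have s3 : j + 2 + 2 - 1 = j + 3 := rfl
  have s4 : j + 2 + 2 - 2 = j + 2 := rfl
  have s5 : j + 2 + 1 = j + 3 := rfl
  rw [s1, s2] at e1
  rw [s3, s4] at e3
  rw [s5] at e2
  rw [s1, s2, EE_a]
  have hb := norm_nonneg (lam p)
  have hxv : x ^ 2 * ‖v‖ ≤ 1 := by
    calc x ^ 2 * ‖v‖ ≤ p * (1 / p) := mul_le_mul hx2 hv hv0 hp0.le
      _ = 1 := by field_simp
  have hxv2 : x ^ 2 * ‖v‖ ^ 2 ≤ 1 := by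
    have hv1 : ‖v‖ ≤ 1 := hv.trans (by rw [div_le_one hp0]; exact hp1)
    calc x ^ 2 * ‖v‖ ^ 2 = (x ^ 2 * ‖v‖) * ‖v‖ := by ring
      _ ≤ 1 * 1 := mul_le_mul hxv hv1 hv0 (by norm_num)
      _ = 1 := by norm_num
  have t1 : ‖lam p * conj (lam (p ^ (j + 2 + 1))) * v‖ ≤ C * (‖lam p‖ * x ^ (j + 1)) := by
    rw [norm_mul, norm_mul, RCLike.norm_conj, s5]
    calc ‖lam p‖ * ‖lam (p ^ (j + 3))‖ * ‖v‖ ≤ ‖lam p‖ * (C * x ^ (j + 3)) * ‖v‖ := by gcongr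
      _ = C * (‖lam p‖ * x ^ (j + 1)) * (x ^ 2 * ‖v‖) := by ring
      _ ≤ C * (‖lam p‖ * x ^ (j + 1)) * 1 := by gcongr
      _ = _ := mul_one _
  have t2 : ‖ps p * conj (lam (p ^ (j + 2 + 2))) * v ^ 2‖ ≤ C * (‖lam p‖ * x ^ (j + 1) + x ^ j) := by
    rw [norm_mul, norm_mul, RCLike.norm_conj, norm_pow]
    calc ‖ps p‖ * ‖lam (p ^ (j + 2 + 2))‖ * ‖v‖ ^ 2 ≤ 1 * (C * (‖lam p‖ * x ^ (j + 3) + x ^ (j + 2))) * ‖v‖ ^ 2 := by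
          gcongr
          exact h.ps_le p
      _ = C * (‖lam p‖ * x ^ (j + 1) + x ^ j) * (x ^ 2 * ‖v‖ ^ 2) := by ring
      _ ≤ C * (‖lam p‖ * x ^ (j + 1) + x ^ j) * 1 := by gcongr
      _ = _ := mul_one _
  refine (norm_add_le _ _).trans ?_
  have t3 := norm_sub_le (conj (lam (p ^ (j + 2)))) (lam p * conj (lam (p ^ (j + 2 + 1))) * v)
  rw [RCLike.norm_conj] at t3
  have t4 : 0 ≤ C * x ^ j := by positivity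
  linarith

/-- the local sum -/
theorem loc_sum (h : Dat ps lam th C) {v : ℂ} {p Z : ℕ} (hp : p.Prime) (hv : ‖v‖ ≤ 1 / p) (hZ : 1 ≤ Z) :
    ∑ k ∈ RR Z, ‖v‖ ^ (k.1 + k.2) * ‖EE ps lam v p k.1 k.2‖ ^ 2 ≤
      1 + (‖lam p‖ ^ 2 * (2 * ‖v‖ - 2 * v.re) + KC th C * er th ‖lam p‖ p) := by
  have h0 := h.th0
  have h1 := h.th1
  have hC := h.C1
  have hp1 : (1 : ℝ) ≤ p := by exact_mod_cast hp.one_le
  have hp0 : (0 : ℝ) < p := by linarith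
  have hv0 := norm_nonneg v
  obtain ⟨y, hyd⟩ : ∃ y : ℝ, y = (p : ℝ) ^ (-(1 - 2 * th)) := ⟨_, rfl⟩
  have hy0 : 0 < y := by rw [hyd]; positivity
  have hy1 : y ≤ 1 := by
    rw [hyd]
    apply Real.rpow_le_one_of_one_le_of_nonpos hp1 (by linarith)
  have hqy : 1 / (p : ℝ) ≤ y := by
    rw [hyd, show (1 : ℝ) / p = (p : ℝ) ^ (-1 : ℝ) by rw [Real.rpow_neg_one, one_div]]
    apply Real.rpow_le_rpow_of_exponent_le hp1 (by linarith)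
  have her : er th ‖lam p‖ p = (‖lam p‖ ^ 2 + 1) * (1 / p * y) := by
    unfold er
    congr 1
    rw [hyd, show (1 : ℝ) / p = (p : ℝ) ^ (-1 : ℝ) by rw [Real.rpow_neg_one, one_div], ← Real.rpow_add hp0]
    congr 1
    ring
  have hx2 : ((p : ℝ) ^ th) ^ 2 * (1 / p) = y := by
    rw [hyd, show (1 : ℝ) / p = (p : ℝ) ^ (-1 : ℝ) by rw [Real.rpow_neg_one, one_div], ← Real.rpow_natCast,
      ← Real.rpow_mul hp0.le, ← Real.rpow_add hp0]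
    congr 1
    push_cast
    ring
  have hb : ‖lam p‖ ^ 2 * (1 / p) ≤ C ^ 2 * y := by
    have h2 := pow_le_pow_left₀ (norm_nonneg _) (h.bp1 hp) 2
    calc ‖lam p‖ ^ 2 * (1 / p) ≤ (C * (p : ℝ) ^ th) ^ 2 * (1 / p) := by gcongr
      _ = C ^ 2 * (((p : ℝ) ^ th) ^ 2 * (1 / p)) := by ring
      _ = C ^ 2 * y := by rw [hx2]
  have hA2' : ‖lam (p ^ 2)‖ * (1 / p) ≤ C * y := by
    calc ‖lam (p ^ 2)‖ * (1 / p) ≤ (C * ((p : ℝ) ^ th) ^ 2) * (1 / p) := by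
          have := h.bp hp 2
          gcongr
      _ = C * (((p : ℝ) ^ th) ^ 2 * (1 / p)) := by ring
      _ = C * y := by rw [hx2]
  have hA2 : ‖lam (p ^ 2)‖ ≤ ‖lam p‖ ^ 2 + 1 := by
    have h2 := h.rc hp 0
    simp only [zero_add, pow_one, pow_zero, h.hk.one, norm_one] at h2
    rw [pow_two ‖lam p‖]
    exact h2
  have hA3 : ‖lam (p ^ 3)‖ ≤ ‖lam p‖ * (1 + ‖lam (p ^ 2)‖) := by
    have h2 := h.rc hp 1
    simp only [pow_one] at h2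
    have e1 : 1 + 2 = 3 := rfl
    have e2 : 1 + 1 = 2 := rfl
    rw [e1, e2] at h2
    linarith
  have T1 := loc_E00 (A := lam p) (h.ps_le p) rfl hv0 hv hqy hy1 hC hb hA2 hA2'
  have T2 := loc_E10 (A := lam p) (h.ps_le p) rfl hv0 hv hqy hy1 hC hA2' hA3
  have T3 := loc_E01 (A := lam p) (h.ps_le p) rfl hv0 hv hqy hy1
  have T4 := loc_E02 (A := lam p) (h.ps_le p) hv0 hv hqy
  have T5 := tail (th := th) (D := 3 * C) (ρ := ‖v‖) (l := ‖lam p‖) hp.two_le h0 h1 hv0 hv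
    (fun r => ‖EE ps lam v p r 0‖) (fun r => norm_nonneg _) (fun r hr => h.ee_loc hp hv hr) Z
  rw [sum_RR]
  simp only [add_zero, zero_add]
  have e1 : range (Z + 1) = insert 0 (insert 1 (Icc 2 Z)) := by
    ext r
    rw [mem_insert, mem_insert, mem_range, mem_Icc]
    omega
  have e2 : ∑ β ∈ Icc 1 Z, ‖v‖ ^ β * ‖EE ps lam v p 0 β‖ ^ 2 ≤
      ‖v‖ * ‖EE ps lam v p 0 1‖ ^ 2 + ‖v‖ ^ 2 * ‖EE ps lam v p 0 2‖ ^ 2 := by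
    have h2 : ∑ β ∈ Icc 1 Z, ‖v‖ ^ β * ‖EE ps lam v p 0 β‖ ^ 2 ≤
        ∑ β ∈ Icc 1 Z ∪ {1, 2}, ‖v‖ ^ β * ‖EE ps lam v p 0 β‖ ^ 2 :=
      sum_le_sum_of_subset_of_nonneg subset_union_left fun _ _ _ => by positivity
    have h3 : ∑ β ∈ {1, 2}, ‖v‖ ^ β * ‖EE ps lam v p 0 β‖ ^ 2 =
        ∑ β ∈ Icc 1 Z ∪ {1, 2}, ‖v‖ ^ β * ‖EE ps lam v p 0 β‖ ^ 2 := by
      refine sum_subset subset_union_right fun β h4 h5 => ?_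
      rw [mem_union, mem_Icc] at h4
      simp only [mem_insert, mem_singleton] at h4 h5
      rw [EE_03 v p β (by omega)]
      simp
    rw [← h3] at h2
    rwa [sum_pair (by norm_num), pow_one] at h2
  rw [e1, sum_insert (by simp), sum_insert (by simp), pow_zero, one_mul, pow_one]
  rw [EE_01 h.hk, EE_02 h.hk] at e2
  rw [← EE_zero h.hk] at T1
  have e3 := EE_a (ps := ps) (lam := lam) v p 1
  rw [pow_one] at e3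
  have e4 : 1 + 1 = 2 := rfl
  have e5 : 1 + 2 = 3 := rfl
  rw [e4, e5] at e3
  rw [← e3] at T2
  rw [her] at T5 ⊢
  unfold KC
  linarith

end Dat

end Pool.Agent.Y771.GL
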