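import Mathlib

set_option autoImplicit false

/-! # GD2, tasks EU1, EU2: sums over primes with weights bounded on average -/

namespace Pool.Agent.Y771.GL

open Finset

/-- the primes up to `X` -/
def pr (X : ℕ) : Finset ℕ := (Icc 1 X).filter Nat.Prime

theorem mem_pr {X p : ℕ} : p ∈ pr X ↔ p ≤ X ∧ p.Prime := by
  unfold pr
  rw [mem_filter, mem_Icc]
  exact ⟨fun h => ⟨h.1.2, h.2⟩, fun h => ⟨⟨h.2.one_le, h.1⟩, h.2⟩⟩

/-- `∑_{p ≤ x} b_p log p / p ≤ 4 log x + C` -/
def RSb (b : ℕ → ℝ) (C : ℝ) : Prop :=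
  ∀ x : ℕ, 1 ≤ x → ∑ p ∈ pr x, b p * Real.log p / p ≤ 4 * Real.log x + C

/-- comparison by partial summation -/
theorem abel (a A f : ℕ → ℝ) (N : ℕ) (_ : ∀ n, N ≤ n → 0 ≤ f n)
    (hf : ∀ n, N ≤ n → f (n + 1) ≤ f n) (hS : ∀ X, N ≤ X → ∑ n ∈ Icc N X, a n ≤ A X) (X : ℕ) (hX : N ≤ X) :
    ∑ n ∈ Icc N X, a n * f n + (A X - ∑ n ∈ Icc N X, a n) * f X ≤
      A N * f N + ∑ n ∈ Ioc N X, (A n - A (n - 1)) * f n := by
  induction X, hX using Nat.le_induction with
  | base =>
    rw [Icc_self, sum_singleton, sum_singleton, Ioc_self, sum_empty]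
    linarith
  | succ X hX ih =>
    have e1 : ∀ g : ℕ → ℝ, ∑ n ∈ Icc N (X + 1), g n = ∑ n ∈ Icc N X, g n + g (X + 1) := fun g => by
      rw [Finset.sum_Icc_succ_top (by omega)]
    have e2 : ∀ g : ℕ → ℝ, ∑ n ∈ Ioc N (X + 1), g n = ∑ n ∈ Ioc N X, g n + g (X + 1) := fun g => by
      rw [Finset.sum_Ioc_succ_top (by omega)]
    rw [e1, e1, e2]
    have h1 := hf X hX
    have h2 := hS X hX
    have h3 : X + 1 - 1 = X := by omega
    rw [h3]
    have h4 : (A X - ∑ n ∈ Icc N X, a n) * f (X + 1) ≤ (A X - ∑ n ∈ Icc N X, a n) * f X :=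
      mul_le_mul_of_nonneg_left h1 (by linarith)
    nlinarith

theorem RSb.real {b : ℕ → ℝ} {C : ℝ} (h : RSb b C) (hb : ∀ n, 0 ≤ b n) (X : ℕ) {Y : ℝ}
    (hY : 0 ≤ Y) : ∑ p ∈ (pr X).filter (fun p : ℕ => Real.log p ≤ Y), b p * Real.log p / p ≤ 4 * Y + C := by
  have h1 : 1 ≤ ⌊Real.exp Y⌋₊ := by
    rw [Nat.one_le_floor_iff]
    exact Real.one_le_exp hY
  have h2 := h _ h1
  have h3 : Real.log (⌊Real.exp Y⌋₊ : ℝ) ≤ Y := by
    rw [Real.log_le_iff_le_exp (by exact_mod_cast h1)]
    exact Nat.floor_le (Real.exp_pos _).le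
  refine le_trans (sum_le_sum_of_subset_of_nonneg ?_ ?_) (h2.trans (by linarith))
  · intro p hp
    rw [mem_filter, mem_pr] at hp
    rw [mem_pr]
    refine ⟨?_, hp.1.2⟩
    apply Nat.le_floor
    rw [← Real.log_le_iff_le_exp (by exact_mod_cast hp.1.2.pos)]
    exact hp.2
  · intro p _ _
    exact div_nonneg (mul_nonneg (hb p) (Real.log_natCast_nonneg _)) (Nat.cast_nonneg _)

theorem RSb.small {b : ℕ → ℝ} {C : ℝ} (h : RSb b C) (hb : ∀ n, 0 ≤ b n) (hC : 0 ≤ C) (X : ℕ) {Y : ℝ}
    (hY : 0 < Y) :
    ∑ p ∈ (pr X).filter (fun p : ℕ => Real.log p ≤ Y), b p / p * (Real.log p / Y) ^ 2 ≤ 4 + C / Real.log 2 := by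
  have hl2 : 0 < Real.log 2 := Real.log_pos (by norm_num)
  rcases lt_or_ge Y (Real.log 2) with h1 | h1
  · rw [filter_false_of_mem, sum_empty]
    · positivity
    · intro p hp
      rw [mem_pr] at hp
      have : Real.log 2 ≤ Real.log p := Real.log_le_log (by norm_num) (by exact_mod_cast hp.2.two_le)
      linarith
  · have h2 := h.real hb X hY.le
    have h3 : ∑ p ∈ (pr X).filter (fun p : ℕ => Real.log p ≤ Y), b p / p * (Real.log p / Y) ^ 2 ≤
        ∑ p ∈ (pr X).filter (fun p : ℕ => Real.log p ≤ Y), b p * Real.log p / p * (1 / Y) := by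
      refine sum_le_sum fun p hp => ?_
      rw [mem_filter] at hp
      have h4 : 0 ≤ Real.log p := Real.log_natCast_nonneg _
      have h5 : (Real.log p / Y) ^ 2 ≤ Real.log p * (1 / Y) := by
        have h6 : Real.log p / Y ≤ 1 := (div_le_one hY).2 hp.2
        have h7 : 0 ≤ Real.log p / Y := by positivity
        have h8 : Real.log p * (1 / Y) = Real.log p / Y := by ring
        rw [h8]
        nlinarith
      have h9 : 0 ≤ b p / p := div_nonneg (hb p) (Nat.cast_nonneg _)
      calc b p / p * (Real.log p / Y) ^ 2 ≤ b p / p * (Real.log p * (1 / Y)) :=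
            mul_le_mul_of_nonneg_left h5 h9
        _ = _ := by ring
    refine h3.trans ?_
    rw [← sum_mul]
    calc _ ≤ (4 * Y + C) * (1 / Y) := mul_le_mul_of_nonneg_right h2 (by positivity)
      _ = 4 + C / Y := by field_simp
      _ ≤ 4 + C / Real.log 2 := by gcongr

/-- the antiderivative -/
theorem Hdiff {L s t : ℝ} (hL : 0 < L) (hs : 0 < s) (hst : s ≤ t) :
    (t - s) * (Real.exp (-(t / L)) / t) ≤
      Real.log (1 - Real.exp (-(t / L))) - Real.log (1 - Real.exp (-(s / L))) := by
  have ht : 0 < t := hs.trans_le hst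
  have hu : Real.exp (-(t / L)) < 1 := Real.exp_lt_one_iff.2 (neg_lt_zero.2 (by positivity))
  have hv : Real.exp (-(s / L)) < 1 := Real.exp_lt_one_iff.2 (neg_lt_zero.2 (by positivity))
  have hu0 := Real.exp_pos (-(t / L))
  -- log A - log B ≥ 1 - B / A
  have h1 : 1 - (1 - Real.exp (-(s / L))) / (1 - Real.exp (-(t / L))) ≤
      Real.log (1 - Real.exp (-(t / L))) - Real.log (1 - Real.exp (-(s / L))) := by
    rw [← Real.log_div (by linarith) (by linarith)]
    have h2 := Real.one_sub_inv_le_log_of_pos (x := (1 - Real.exp (-(t / L))) / (1 - Real.exp (-(s / L))))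
      (div_pos (by linarith) (by linarith))
    rwa [inv_div] at h2
  refine le_trans ?_ h1
  have hA : 0 < 1 - Real.exp (-(t / L)) := by linarith
  have h3 : 1 - (1 - Real.exp (-(s / L))) / (1 - Real.exp (-(t / L))) =
      (Real.exp (-(s / L)) - Real.exp (-(t / L))) / (1 - Real.exp (-(t / L))) := by
    field_simp
    ring
  rw [h3]
  have h4 : Real.exp (-(s / L)) = Real.exp (-(t / L)) * Real.exp ((t - s) / L) := by
    rw [← Real.exp_add]
    congr 1
    ring
  have h5 : (t - s) / L + 1 ≤ Real.exp ((t - s) / L) := Real.add_one_le_exp _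
  have h6 : 1 - Real.exp (-(t / L)) ≤ t / L := by
    have := Real.add_one_le_exp (-(t / L))
    linarith
  rw [h4]
  have h7 : Real.exp (-(t / L)) * ((t - s) / L) ≤
      Real.exp (-(t / L)) * Real.exp ((t - s) / L) - Real.exp (-(t / L)) := by nlinarith
  have h8 : 0 ≤ (t - s) := by linarith
  calc (t - s) * (Real.exp (-(t / L)) / t) = (Real.exp (-(t / L)) * ((t - s) / L)) / (t / L) := by
        field_simp
    _ ≤ (Real.exp (-(t / L)) * ((t - s) / L)) / (1 - Real.exp (-(t / L))) := by
        apply div_le_div_of_nonneg_left (by positivity) hA h6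
    _ ≤ _ := by
        apply div_le_div_of_nonneg_right h7 hA.le

theorem Hlow {L Y : ℝ} (hY : 0 < Y) (hYL : Y ≤ L) :
    -Real.log (1 - Real.exp (-(Y / L))) ≤ Real.log (L / Y) + 1 := by
  have hL : 0 < L := hY.trans_le hYL
  have hx : Y / L ≤ 1 := (div_le_one hL).2 hYL
  have hx0 : 0 < Y / L := by positivity
  -- 1 - e^{-x} ≥ x / 2 for 0 ≤ x ≤ 1
  have h1 : Y / L / 2 ≤ 1 - Real.exp (-(Y / L)) := by
    have h2 := Real.add_one_le_exp (Y / L)
    have h3 : Real.exp (-(Y / L)) * Real.exp (Y / L) = 1 := by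
      rw [← Real.exp_add]
      simp
    have h4 := Real.exp_pos (-(Y / L))
    nlinarith
  have h3 : Real.log (Y / L / 2) ≤ Real.log (1 - Real.exp (-(Y / L))) :=
    Real.log_le_log (by positivity) h1
  have h4 : Real.log (Y / L / 2) = -Real.log (L / Y) - Real.log 2 := by
    rw [Real.log_div (by positivity) (by norm_num)]
    congr 1
    rw [← Real.log_inv, inv_div]
  have h5 : Real.log 2 ≤ 1 := by
    have := Real.log_two_lt_d9
    linarith
  linarith

/-- the primes with `log p > Y` -/
theorem RSb.large {b : ℕ → ℝ} {C : ℝ} (h : RSb b C) (hb : ∀ n, 0 ≤ b n) (hC : 0 ≤ C) :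
    ∃ C2 : ℝ, 0 ≤ C2 ∧ ∀ (L Y : ℝ) (X : ℕ), 1 ≤ L → 0 < Y → Y ≤ L →
      ∑ p ∈ (pr X).filter (fun p : ℕ => Y < Real.log p), b p * (p : ℝ) ^ (-(1 + 1 / L)) ≤
        4 * Real.log (L / Y) + C2 := by
  have hl2 : 0 < Real.log 2 := Real.log_pos (by norm_num)
  refine ⟨4 + C / Real.log 2 + 4, by positivity, fun L Y X hL hY hYL => ?_⟩
  have hL0 : 0 < L := by linarith
  -- the first integer beyond exp Y, at least 2
  obtain ⟨N, hN⟩ : ∃ N, N = max 2 (⌊Real.exp Y⌋₊ + 1) := ⟨_, rfl⟩
  have hN2 : 2 ≤ N := by rw [hN]; exact le_max_left _ _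
  have hNY : Y < Real.log N := by
    rw [Real.lt_log_iff_exp_lt (by positivity)]
    calc Real.exp Y < ⌊Real.exp Y⌋₊ + 1 := Nat.lt_floor_add_one _
      _ ≤ N := by rw [hN]; push_cast; exact le_max_right _ _
  have hlog : ∀ n : ℕ, N ≤ n → Real.log 2 ≤ Real.log n := fun n hn =>
    Real.log_le_log (by norm_num) (by exact_mod_cast hN2.trans hn)
  obtain ⟨a, ha⟩ : ∃ a : ℕ → ℝ, a = fun n => if n.Prime then b n * Real.log n / n else 0 := ⟨_, rfl⟩
  obtain ⟨f, hf⟩ : ∃ f : ℕ → ℝ, f = fun n : ℕ => Real.exp (-(Real.log n / L)) / Real.log n := ⟨_, rfl⟩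
  have hterm : ∀ n, 0 ≤ b n * Real.log n / n := fun n =>
    div_nonneg (mul_nonneg (hb n) (Real.log_natCast_nonneg _)) (Nat.cast_nonneg _)
  rcases Nat.lt_or_ge X N with hXN | hXN
  · rw [filter_false_of_mem, sum_empty]
    · have : 0 ≤ Real.log (L / Y) := Real.log_nonneg ((one_le_div hY).2 hYL)
      positivity
    · intro p hp
      rw [mem_pr] at hp
      intro h1
      have h2 : p < ⌊Real.exp Y⌋₊ + 1 := by
        rcases Nat.lt_or_ge p (⌊Real.exp Y⌋₊ + 1) with h3 | h3
        · exact h3
        · exfalso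
          have : N ≤ p := by rw [hN]; exact max_le hp.2.two_le h3
          omega
      have h3 : (p : ℝ) ≤ Real.exp Y := by
        rw [← Nat.le_floor_iff (Real.exp_pos _).le]
        omega
      rw [Real.lt_log_iff_exp_lt (by exact_mod_cast hp.2.pos)] at h1
      linarith
  · have h1 := abel a (fun n => 4 * Real.log n + C) f N
      (fun n hn => by
        rw [hf]
        exact div_nonneg (Real.exp_pos _).le (hl2.le.trans (hlog n hn)))
      (fun n hn => by
        rw [hf]
        have h2 := hlog n hn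
        have h3 : Real.log n ≤ Real.log ((n + 1 : ℕ) : ℝ) := by
          apply Real.log_le_log
          · exact_mod_cast (by omega : 0 < n)
          · push_cast; linarith
        exact div_le_div₀ (Real.exp_pos _).le (Real.exp_le_exp.2 (by
          have : Real.log n / L ≤ Real.log ((n + 1 : ℕ) : ℝ) / L := by gcongr
          linarith)) (by linarith) h3)
      (fun X' hX' => by
        refine le_trans ?_ (h X' (by omega))
        rw [ha]
        simp only
        rw [← sum_filter]
        refine sum_le_sum_of_subset_of_nonneg ?_ fun i _ _ => hterm i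
        intro p hp
        rw [mem_filter, mem_Icc] at hp
        rw [mem_pr]
        exact ⟨hp.1.2, hp.2⟩) X hXN
    have h2 : 0 ≤ (4 * Real.log X + C - ∑ n ∈ Icc N X, a n) * f X := by
      refine mul_nonneg ?_ ?_
      · have : ∑ n ∈ Icc N X, a n ≤ 4 * Real.log X + C := by
          refine le_trans ?_ (h X (by omega))
          rw [ha]
          simp only
          rw [← sum_filter]
          refine sum_le_sum_of_subset_of_nonneg ?_ fun i _ _ => hterm i
          intro p hp
          rw [mem_filter, mem_Icc] at hp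
          rw [mem_pr]
          exact ⟨hp.1.2, hp.2⟩
        linarith
      · rw [hf]
        exact div_nonneg (Real.exp_pos _).le (hl2.le.trans (hlog X hXN))
    -- the sum is at most the sum of a n f n
    have h3 : ∑ p ∈ (pr X).filter (fun p : ℕ => Y < Real.log p), b p * (p : ℝ) ^ (-(1 + 1 / L)) ≤
        ∑ n ∈ Icc N X, a n * f n := by
      have h4 : ∑ n ∈ Icc N X, a n * f n =
          ∑ p ∈ (Icc N X).filter Nat.Prime, b p * (p : ℝ) ^ (-(1 + 1 / L)) := by
        rw [sum_filter]
        refine sum_congr rfl fun n hn => ?_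
        rw [mem_Icc] at hn
        rw [ha, hf]
        simp only
        split_ifs with hp
        · have h5 : 0 < Real.log n := hl2.trans_le (hlog n hn.1)
          have h6 : (0 : ℝ) < n := by exact_mod_cast hp.pos
          have h7 : (n : ℝ) ^ (-(1 + 1 / L)) = Real.exp (-(Real.log n / L)) / n := by
            rw [neg_add, Real.rpow_add h6, Real.rpow_neg_one, Real.rpow_def_of_pos h6]
            rw [div_eq_mul_inv, mul_comm]
            congr 2
            ring
          rw [h7]
          field_simp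
        · rw [zero_mul]
      rw [h4]
      refine sum_le_sum_of_subset_of_nonneg ?_ fun i _ _ => mul_nonneg (hb i)
        (Real.rpow_nonneg (Nat.cast_nonneg _) _)
      intro p hp
      rw [mem_filter, mem_pr] at hp
      rw [mem_filter, mem_Icc]
      refine ⟨⟨?_, hp.1.1⟩, hp.1.2⟩
      rw [hN]
      refine max_le hp.1.2.two_le ?_
      rw [Nat.succ_le_iff, Nat.floor_lt (Real.exp_pos _).le,
        ← Real.lt_log_iff_exp_lt (by exact_mod_cast hp.1.2.pos)]
      exact hp.2
    -- the right side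
    have h5 : (4 * Real.log N + C) * f N ≤ 4 + C / Real.log 2 := by
      rw [hf]
      simp only
      have h6 := hlog N le_rfl
      have h7 : 0 < Real.log N := by linarith
      have h8 : Real.exp (-(Real.log N / L)) ≤ 1 := Real.exp_le_one_iff.2 (by
        have : 0 ≤ Real.log N / L := by positivity
        linarith)
      calc (4 * Real.log N + C) * (Real.exp (-(Real.log N / L)) / Real.log N) ≤
            (4 * Real.log N + C) * (1 / Real.log N) := by gcongr
        _ = 4 + C / Real.log N := by field_simp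
        _ ≤ _ := by gcongr
    have h6 : ∑ n ∈ Ioc N X, (4 * Real.log n + C - (4 * Real.log ((n - 1 : ℕ) : ℝ) + C)) * f n ≤
        4 * ∑ n ∈ Ioc N X, (Real.log (1 - Real.exp (-(Real.log n / L))) -
          Real.log (1 - Real.exp (-(Real.log ((n - 1 : ℕ) : ℝ) / L)))) := by
      rw [mul_sum]
      refine sum_le_sum fun n hn => ?_
      rw [mem_Ioc] at hn
      have h7 : 0 < Real.log ((n - 1 : ℕ) : ℝ) := hl2.trans_le (hlog (n - 1) (by omega))
      have h8 : Real.log ((n - 1 : ℕ) : ℝ) ≤ Real.log n := by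
        apply Real.log_le_log
        · exact_mod_cast (by omega : 0 < n - 1)
        · exact_mod_cast (by omega : n - 1 ≤ n)
      have h9 := Hdiff hL0 h7 h8
      rw [hf]
      simp only
      nlinarith
    have h7 : ∑ n ∈ Ioc N X, (Real.log (1 - Real.exp (-(Real.log n / L))) -
          Real.log (1 - Real.exp (-(Real.log ((n - 1 : ℕ) : ℝ) / L)))) =
        Real.log (1 - Real.exp (-(Real.log X / L))) - Real.log (1 - Real.exp (-(Real.log N / L))) := by
      clear h1 h2 h3 h6
      induction X, hXN using Nat.le_induction with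
      | base => simp
      | succ X hX ih =>
        rw [Finset.sum_Ioc_succ_top (by omega), ih]
        have : X + 1 - 1 = X := by omega
        rw [this]
        ring
    have h8 : Real.log (1 - Real.exp (-(Real.log X / L))) ≤ 0 := by
      apply Real.log_nonpos
      · have : Real.exp (-(Real.log X / L)) ≤ 1 := Real.exp_le_one_iff.2 (by
          have := Real.log_natCast_nonneg X
          have : 0 ≤ Real.log X / L := by positivity
          linarith)
        linarith
      · have := Real.exp_pos (-(Real.log X / L))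
        linarith
    have h9 : -Real.log (1 - Real.exp (-(Real.log N / L))) ≤ -Real.log (1 - Real.exp (-(Y / L))) := by
      apply neg_le_neg
      apply Real.log_le_log
      · have : Real.exp (-(Y / L)) < 1 := Real.exp_lt_one_iff.2 (neg_lt_zero.2 (by positivity))
        linarith
      · have : Real.exp (-(Real.log N / L)) ≤ Real.exp (-(Y / L)) := Real.exp_le_exp.2 (by
          have : Y / L ≤ Real.log N / L := by gcongr
          linarith)
        linarith
    have h10 := Hlow hY hYL
    linarith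

end Pool.Agent.Y771.GL
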